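import Pool.Agent.Work.MP_76e736_lc.CM
import Mathlib.NumberTheory.Bertrand

/-! Block decomposition of a space-time diagram and the diagonal argument. -/

namespace Pool.Agent.Work.MP_76e736_lc

def ustp {α : Type} (ρ : α → α → α → α) (c : ℤ → α) (i : ℤ) : α :=
  ρ (c (i - 1)) (c i) (c (i + 1))

theorem ustp_local {α : Type} (ρ : α → α → α → α) (t : ℕ) :
    ∀ (c c' : ℤ → α) (i i' : ℤ), (∀ k : ℤ, -(t : ℤ) ≤ k → k ≤ t → c (i + k) = c' (i' + k)) →
      (ustp ρ)^[t] c i = (ustp ρ)^[t] c' i' := by
  induction t with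
  | zero => intro c c' i i' h; simpa using h 0 (by simp) (by simp)
  | succ t ih =>
    intro c c' i i' h
    rw [Function.iterate_succ_apply, Function.iterate_succ_apply]
    refine ih _ _ _ _ (fun k h1 h2 => ?_)
    have a := h (k - 1) (by push_cast; omega) (by push_cast; omega)
    have b := h k (by push_cast; omega) (by push_cast; omega)
    have d := h (k + 1) (by push_cast; omega) (by push_cast; omega)
    simp only [ustp]
    rw [show i + k - 1 = i + (k - 1) by ring, show i' + k - 1 = i' + (k - 1) by ring,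
      show i + k + 1 = i + (k + 1) by ring, show i' + k + 1 = i' + (k + 1) by ring, a, b, d]

def win {α : Type} (a0 : α) (B : ℕ) (x : Fin 3 → Fin B → α) (k : ℤ) : α :=
  if h : 0 ≤ k ∧ k < B then x 0 ⟨k.toNat, by omega⟩
  else if h : B ≤ k ∧ k < 2 * B then x 1 ⟨(k - B).toNat, by omega⟩
  else if h : 2 * B ≤ k ∧ k < 3 * B then x 2 ⟨(k - 2 * B).toNat, by omega⟩
  else a0

def blockΦ {α : Type} (ρ : α → α → α → α) (a0 : α) (B : ℕ) (x : Fin 3 → Fin B → α) :
    Fin B → α := fun r => (ustp ρ)^[B] (win a0 B x) (B + r)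

theorem block_step {α : Type} (ρ : α → α → α → α) (a0 : α) (B m : ℕ) (c : ℤ → α)
    (hneg : ∀ i : ℤ, i < 0 → c i = a0) (hbig : ∀ i : ℤ, (m * B : ℕ) ≤ i → c i = a0)
    (j : ℕ) :
    (fun r : Fin B => (ustp ρ)^[B] c ((j * B : ℕ) + (r : ℕ)))
      = blockΦ ρ a0 B (nb (fun _ => a0) m (fun j (r : Fin B) => c ((j * B : ℕ) + (r : ℕ))) j) := by
  funext r
  have hr := r.2
  refine ustp_local ρ B _ _ _ _ (fun k h1 h2 => ?_)
  unfold win
  split_ifs with g1 g2 g3
  · by_cases hj : j = 0
    · subst hj
      simp only [nb, if_true]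
      exact hneg _ (by push_cast; omega)
    · obtain ⟨j', rfl⟩ : ∃ j', j = j' + 1 := ⟨j - 1, by omega⟩
      simp only [nb, if_true, hj, if_false, Nat.add_sub_cancel]
      congr 1
      rw [Nat.succ_mul]
      omega
  · simp only [nb, if_true, show ¬ ((1 : Fin 3) = 0) by decide, if_false]
    congr 1
    omega
  · simp only [nb, show ¬ ((2 : Fin 3) = 0) by decide, show ¬ ((2 : Fin 3) = 1) by decide,
      if_false]
    by_cases hj : j + 1 = m
    · simp only [hj, if_true]
      refine hbig _ ?_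
      rw [← hj, Nat.succ_mul]
      omega
    · simp only [hj, if_false]
      congr 1
      rw [Nat.succ_mul]
      omega
  · omega

section
variable {S Q : Type} (δ : Option Q → Option Q → Option Q → Q) (ini : S → Q) (F : Q → Prop)
  (w : List S)

theorem caCfg_none (t i : ℕ) (h : ¬ (1 ≤ i ∧ i ≤ w.length)) : caCfg δ ini w t i = none := by
  cases t with
  | zero =>
    simp only [caCfg, Function.iterate_zero, id, caInit]
    split_ifs with h1
    · rw [List.getElem?_eq_none (by omega)]; rfl
    · rfl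
  | succ t => rw [caCfg_succ]; simp [caStep, h]

theorem caCfg_some (t i : ℕ) (h : 1 ≤ i ∧ i ≤ w.length) : ∃ q, caCfg δ ini w t i = some q := by
  cases t with
  | zero =>
    have : i - 1 < w.length := by omega
    exact ⟨ini w[i - 1], by simp [caCfg, caInit, h.1, this]⟩
  | succ t => rw [caCfg_succ]; simp [caStep, h]

open Classical in
/-- Local rule with a flag recording a past visit to an accepting state. -/
noncomputable def flagRule (l s r : Option (Q × Bool)) : Option (Q × Bool) :=
  match s with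
  | none => none
  | some (q, b) =>
    some (δ (l.map Prod.fst) (some q) (r.map Prod.fst),
      b || decide (F (δ (l.map Prod.fst) (some q) (r.map Prod.fst))))

open Classical in
noncomputable def flagCfg (t : ℕ) (i : ℤ) : Option (Q × Bool) :=
  if 0 ≤ i then (caCfg δ ini w t (i.toNat + 1)).map (fun q =>
    (q, decide (∃ t', t' ≤ t ∧ ∃ q', F q' ∧ caCfg δ ini w t' (i.toNat + 1) = some q')))
  else none

theorem flagCfg_fst (t : ℕ) (i : ℤ) (k : ℕ) (h : i + 1 = k) :
    (flagCfg δ ini F w t i).map Prod.fst = caCfg δ ini w t k := by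
  unfold flagCfg
  split_ifs with h1
  · rw [show i.toNat + 1 = k by omega]
    cases caCfg δ ini w t k <;> rfl
  · rw [caCfg_none δ ini w t k (by omega)]; rfl

theorem flagCfg_succ (t : ℕ) :
    flagCfg δ ini F w (t + 1) = ustp (flagRule δ F) (flagCfg δ ini F w t) := by
  funext i
  unfold ustp
  by_cases h0 : 0 ≤ i
  · obtain ⟨k, rfl⟩ := Int.eq_ofNat_of_zero_le h0
    have hl := flagCfg_fst δ ini F w t ((k : ℤ) - 1) k (by omega)
    have hr := flagCfg_fst δ ini F w t ((k : ℤ) + 1) (k + 2) (by push_cast; omega)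
    by_cases hk : k < w.length
    · obtain ⟨q, hq⟩ := caCfg_some δ ini w t (k + 1) (by omega)
      have hs : caCfg δ ini w (t + 1) (k + 1)
          = some (δ (caCfg δ ini w t k) (some q) (caCfg δ ini w t (k + 2))) := by
        rw [caCfg_succ]
        have : 1 ≤ k + 1 ∧ k + 1 ≤ w.length := by omega
        simp [caStep, this, hq]
      generalize flagCfg δ ini F w t ((k : ℤ) - 1) = l at hl
      generalize flagCfg δ ini F w t ((k : ℤ) + 1) = r at hr
      rw [← hl, ← hr] at hs
      simp only [flagCfg, h0, if_true, Int.toNat_natCast, hq, hs, Option.map_some, flagRule,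
        Option.some.injEq, Prod.mk.injEq, true_and]
      rw [Bool.eq_iff_iff]
      simp only [decide_eq_true_eq, Bool.or_eq_true]
      constructor
      · rintro ⟨t', ht', q', hF, hq'⟩
        by_cases e : t' = t + 1
        · subst e
          rw [hs] at hq'
          cases hq'
          exact Or.inr hF
        · exact Or.inl ⟨t', by omega, q', hF, hq'⟩
      · rintro (⟨t', ht', q', hF, hq'⟩ | hF)
        · exact ⟨t', by omega, q', hF, hq'⟩
        · exact ⟨t + 1, le_rfl, _, hF, hs⟩
    · have a := caCfg_none δ ini w t (k + 1) (by omega)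
      have b := caCfg_none δ ini w (t + 1) (k + 1) (by omega)
      generalize flagCfg δ ini F w t ((k : ℤ) - 1) = l
      generalize flagCfg δ ini F w t ((k : ℤ) + 1) = r
      simp [flagCfg, a, b, flagRule]
  · generalize flagCfg δ ini F w t (i - 1) = l
    generalize flagCfg δ ini F w t (i + 1) = r
    simp [flagCfg, h0, flagRule]

theorem flagCfg_add (t u : ℕ) :
    flagCfg δ ini F w (t + u) = (ustp (flagRule δ F))^[u] (flagCfg δ ini F w t) := by
  induction u with
  | zero => rfl
  | succ u ih => rw [← Nat.add_assoc, flagCfg_succ, ih, Function.iterate_succ_apply']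

end

theorem params (c : ℕ) :
    ∃ ℓ p : ℕ, 0 < ℓ ∧ p.Prime ∧ 3 * (c * ℓ) < p - 1 ∧ 8 * (9 * p + 1) ≤ 2 ^ ℓ := by
  obtain ⟨k, hk⟩ : ∃ k, k = 1000 * c + 1000 := ⟨_, rfl⟩
  obtain ⟨p, hp, h1, h2⟩ := Nat.exists_prime_lt_and_le_two_mul (3 * (c * (2 * k)) + 1) (by omega)
  refine ⟨2 * k, p, by omega, hp, by omega, ?_⟩
  have h3 : k < 2 ^ k := Nat.lt_two_pow_self
  have h4 : 2 ^ (2 * k) = 2 ^ k * 2 ^ k := by rw [two_mul, pow_add]
  have h5 : k * k ≤ 2 ^ k * 2 ^ k := Nat.mul_le_mul h3.le h3.le
  have h6 : k * k = 1000 * (c * k) + 1000 * k := by nth_rewrite 1 [hk]; ring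
  have h7 : c * (2 * k) = 2 * (c * k) := by ring
  omega

/-- A cellular array that differs, for every array `M` and every `c`, from `M` run for at least
`c * n` steps on some input of length `n`. -/
theorem diag :
    ∃ (D : Type) (_ : Fintype D) (δD : Option D → Option D → Option D → D) (iniD : Sym → D)
      (FD : D → Prop), ∀ (Q : Type) [Fintype Q] (δ : Option Q → Option Q → Option Q → Q)
        (ini : Sym → Q) (F : Q → Prop) (c : ℕ), ∃ (w : List Sym) (T : ℕ), c * w.length ≤ T ∧
          ((∃ t, caAccAt δD iniD FD w t) ↔ ¬ ∃ t, t ≤ T ∧ caAccAt δ ini F w t) := by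
  classical
  obtain ⟨D, hD, δD, iniD, FD, hU⟩ := univ_ca
  refine ⟨D, hD, δD, iniD, FD, fun Q _ δ ini F c0 => ?_⟩
  obtain ⟨c, hc⟩ : ∃ c, c = c0 + 1 := ⟨_, rfl⟩
  obtain ⟨ℓ, p, hℓ, hp, hdeg, hcard⟩ := params c
  have : Fact p.Prime := ⟨hp⟩
  obtain ⟨B, hB⟩ : ∃ B, B = c * ℓ := ⟨_, rfl⟩
  have hBpos : 0 < B := by rw [hB]; exact Nat.mul_pos (by omega) hℓ
  let α := Option (Q × Bool)
  let Φ : (Fin 3 → Fin B → α) → Fin B → α := blockΦ (flagRule δ F) none B
  obtain ⟨prog, hlen, hspec⟩ := cm_scheme (α := α) (I := Fin B) (K := ZMod p)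
    (by simp only [Fintype.card_fin, ZMod.card]; rw [hB]; exact hdeg) Φ
  simp only [ZMod.card] at hlen
  have hemb : Nonempty (((Fin 4 × Bool) × Fin (9 * p + 1)) ↪ (Fin ℓ → Bool)) := by
    apply Function.Embedding.nonempty_of_card_le
    simpa using hcard
  obtain ⟨emb⟩ := hemb
  let enc : (Fin 4 × Bool) × Fin (9 * p + 1) → List Bool := fun f => List.ofFn (emb f)
  have henc_inj : Function.Injective enc := fun a b h => emb.injective (List.ofFn_injective h)
  let dec := Function.invFun enc
  have hdec : ∀ f, dec (enc f) = f := Function.leftInverse_invFun henc_inj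
  have henc : ∀ f, (enc f).length = ℓ := fun f => List.length_ofFn
  let rd : List (Option Sym) → Fin B → α := fun l r =>
    ((l[r.val]?).join).map (fun a => (ini a, decide (F (ini a))))
  let P : (Fin B → α) → Prop := fun a => ∃ q, a ⟨0, hBpos⟩ = some (q, false)
  let out : Regs α (Fin B) (ZMod p) → Bool := fun g => decide (∃ a, g 0 = oh a ∧ P a)
  obtain ⟨St, hSt, δP, accP, s0, hP⟩ := prog_machine
    (lprog B ℓ cmAdd (fun _ => none) rd prog out enc dec) lacc (.call (0, true) 0)
  obtain ⟨tbl, htbl⟩ := hU St δP accP s0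
  obtain ⟨m, hm⟩ : ∃ m, m = tbl.length + 1 := ⟨_, rfl⟩
  have hmB : m ≤ m * B := Nat.le_mul_of_pos_right _ hBpos
  let pad : List Sym := List.replicate (m * B - tbl.length) none
  have hn : (tbl ++ pad).length = m * B := by
    simp only [pad, List.length_append, List.length_replicate]; omega
  set w := tbl ++ pad with hw
  refine ⟨w, (c * m) * B, ?_, ?_⟩
  · rw [hn, hc]; nlinarith
  rw [htbl pad (by rw [← hw, hn]; omega), hP]
  let X : ℕ → ℕ → Fin B → α := fun τ j r => flagCfg δ ini F w (τ * B) ((j * B : ℕ) + (r : ℕ))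
  rw [rec_acc B ℓ cmAdd (fun _ => none) rd prog out enc dec w m hBpos hℓ (by omega) hn Φ X hlen hspec
    henc hdec ?_ ?_ (c * m) (by rw [hn, hB]; ring)]
  · have h1 : (∃ a, cmAdd ((0 : Fin 4), true) (X (c * m) 0) (0 : Regs α (Fin B) (ZMod p)) 0 = oh a
        ∧ P a) ↔ P (X (c * m) 0) := by
      have : cmAdd ((0 : Fin 4), true) (X (c * m) 0) (0 : Regs α (Fin B) (ZMod p)) 0
          = oh (X (c * m) 0) := by simp [cmAdd, sg]
      rw [this]
      constructor
      · rintro ⟨a, ha, hPa⟩
        rw [oh_injective ha]; exact hPa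
      · intro h; exact ⟨_, rfl, h⟩
    simp only [out, decide_eq_true_eq, h1]
    obtain ⟨q, hq⟩ := caCfg_some δ ini w (c * m * B) 1 (by omega)
    have hX : X (c * m) 0 ⟨0, hBpos⟩ = some (q, decide (∃ t', t' ≤ c * m * B ∧
        ∃ q', F q' ∧ caCfg δ ini w t' 1 = some q')) := by
      simp [X, flagCfg, hq]
    simp only [P, hX, caAccAt]
    constructor
    · rintro ⟨q', h⟩
      have := (Prod.mk.inj (Option.some.inj h)).2
      simpa using this
    · intro h
      exact ⟨q, by rw [decide_eq_false h]⟩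
  · intro τ j _
    have := block_step (flagRule δ F) none B m (flagCfg δ ini F w (τ * B))
      (fun i hi => by simp [flagCfg, not_le.2 hi])
      (fun i hi => by
        have h0 : 0 ≤ i := by omega
        simp only [flagCfg, h0, if_true]
        rw [caCfg_none δ ini w _ _ (by omega)]; rfl) j
    simp only [X, Φ, Nat.succ_mul, flagCfg_add]
    exact this
  · intro j _ l hl
    funext r
    have h0 : (0 : ℤ) ≤ ((j * B : ℕ) : ℤ) + ((r : ℕ) : ℤ) := by omega
    have h1 : (((j * B : ℕ) : ℤ) + ((r : ℕ) : ℤ)).toNat = j * B + r := by omega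
    simp only [rd, X, hl r r.2, flagCfg, h0, if_true, h1, zero_mul, Option.join_some]
    simp only [caCfg, Function.iterate_zero, id, caInit, Nat.le_add_left, if_true,
      Nat.add_sub_cancel, Option.map_map, nonpos_iff_eq_zero, exists_eq_left]
    cases w[j * B + r]? <;> simp

end Pool.Agent.Work.MP_76e736_lc
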