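import Mathlib.Logic.Function.Iterate
import Mathlib.Data.Fintype.Card
import Mathlib.Data.Fintype.EquivFin
import Mathlib.Tactic.Ring
import Mathlib.Tactic.Linarith

/-! Basic notions: cellular arrays over arbitrary types, a generic simulation lemma. -/

namespace Pool.Agent.Work.MP_76e736_lc

/-- One synchronous step of a linear cellular array with `n` cells, in positions `1..n`. -/
def caStep {Q : Type} (δ : Option Q → Option Q → Option Q → Q) (n : ℕ)
    (cfg : ℕ → Option Q) (i : ℕ) : Option Q :=
  if 1 ≤ i ∧ i ≤ n then some (δ (cfg (i - 1)) (cfg i) (cfg (i + 1))) else none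

/-- The initial configuration. -/
def caInit {S Q : Type} (ini : S → Q) (w : List S) (i : ℕ) : Option Q :=
  if 1 ≤ i then (w[i - 1]?).map ini else none

/-- The configuration at time `t`. -/
def caCfg {S Q : Type} (δ : Option Q → Option Q → Option Q → Q) (ini : S → Q) (w : List S)
    (t : ℕ) : ℕ → Option Q :=
  (caStep δ w.length)^[t] (caInit ini w)

/-- The leftmost cell is in an accepting state at time `t`. -/
def caAccAt {S Q : Type} (δ : Option Q → Option Q → Option Q → Q) (ini : S → Q) (F : Q → Prop)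
    (w : List S) (t : ℕ) : Prop :=
  ∃ q, F q ∧ caCfg δ ini w t 1 = some q

theorem caCfg_succ {S Q : Type} (δ : Option Q → Option Q → Option Q → Q) (ini : S → Q)
    (w : List S) (t : ℕ) : caCfg δ ini w (t + 1) = caStep δ w.length (caCfg δ ini w t) := by
  unfold caCfg
  rw [Function.iterate_succ_apply']

theorem caCfg_map_input {S S' Q : Type} (δ : Option Q → Option Q → Option Q → Q) (ini : S' → Q)
    (e : S → S') (w : List S) (t : ℕ) :
    caCfg δ ini (w.map e) t = caCfg δ (ini ∘ e) w t := by
  unfold caCfg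
  rw [List.length_map]
  congr 1
  funext i
  simp [caInit]

theorem caCfg_equiv {S Q Q' : Type} (δ : Option Q → Option Q → Option Q → Q) (ini : S → Q)
    (e : Q ≃ Q') (w : List S) (t : ℕ) (i : ℕ) :
    caCfg (fun a b c => e (δ (a.map e.symm) (b.map e.symm) (c.map e.symm))) (e ∘ ini) w t i
      = (caCfg δ ini w t i).map e := by
  induction t generalizing i with
  | zero =>
    simp only [caCfg, Function.iterate_zero, id, caInit]
    split_ifs <;> simp
  | succ t ih =>
    rw [caCfg_succ, caCfg_succ]
    simp only [caStep]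
    split_ifs
    · simp [ih]
    · simp

/-- Generic simulation lemma for deterministic systems with sticky acceptance. -/
theorem sim {A B : Type} (f : A → A) (g : B → B) (R : A → B → Prop) (accA : A → Prop)
    (accB : B → Prop)
    (hstep : ∀ a b, R a b → ∃ t, 1 ≤ t ∧ R (f a) (g^[t] b))
    (hacc : ∀ a b, R a b → (accA a ↔ accB b))
    (hst : ∀ b, accB b → accB (g b)) (a0 : A) (b0 : B) (h0 : R a0 b0) :
    (∃ t, accA (f^[t] a0)) ↔ (∃ t, accB (g^[t] b0)) := by
  have key : ∀ j, ∃ t, j ≤ t ∧ R (f^[j] a0) (g^[t] b0) := by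
    intro j
    induction j with
    | zero => exact ⟨0, le_rfl, h0⟩
    | succ j ih =>
      obtain ⟨t, ht, hR⟩ := ih
      obtain ⟨u, hu, hR'⟩ := hstep _ _ hR
      refine ⟨u + t, by omega, ?_⟩
      rw [Function.iterate_succ_apply', Function.iterate_add_apply]
      exact hR'
  have hst' : ∀ u b, accB b → accB (g^[u] b) := by
    intro u
    induction u with
    | zero => intro b hb; exact hb
    | succ u ih => intro b hb; rw [Function.iterate_succ_apply']; exact hst _ (ih b hb)
  constructor
  · rintro ⟨j, hj⟩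
    obtain ⟨t, -, hR⟩ := key j
    exact ⟨t, (hacc _ _ hR).1 hj⟩
  · rintro ⟨j, hj⟩
    obtain ⟨t, ht, hR⟩ := key j
    refine ⟨j, (hacc _ _ hR).2 ?_⟩
    obtain ⟨u, rfl⟩ : ∃ u, t = u + j := ⟨t - j, by omega⟩
    rw [Function.iterate_add_apply]
    exact hst' _ _ hj

/-- `b` is reached from `a` in finitely many steps of `f`. -/
def Reach {A : Type} (f : A → A) (a b : A) : Prop := ∃ t, f^[t] a = b

theorem Reach.refl {A : Type} (f : A → A) (a : A) : Reach f a a := ⟨0, rfl⟩

theorem Reach.trans {A : Type} {f : A → A} {a b c : A} (h1 : Reach f a b) (h2 : Reach f b c) :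
    Reach f a c := by
  obtain ⟨t, rfl⟩ := h1
  obtain ⟨u, rfl⟩ := h2
  exact ⟨u + t, by rw [Function.iterate_add_apply]⟩

theorem Reach.head {A : Type} {f : A → A} {a b : A} (h : Reach f (f a) b) : Reach f a b := by
  obtain ⟨t, rfl⟩ := h
  exact ⟨t + 1, rfl⟩

theorem Reach.head' {A : Type} {f : A → A} {a a' b : A} (h' : f a = a') (h : Reach f a' b) :
    Reach f a b := Reach.head (h' ▸ h)

theorem Reach.pos {A : Type} {f : A → A} {a b : A} (h : Reach f (f a) b) :
    ∃ t, 1 ≤ t ∧ f^[t] a = b := by
  obtain ⟨t, rfl⟩ := h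
  exact ⟨t + 1, by omega, rfl⟩

end Pool.Agent.Work.MP_76e736_lc
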