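import Pool.Agent.Work.MP_76e736_lc.Rec
import Mathlib.FieldTheory.Finite.Basic
import Mathlib.Algebra.Polynomial.BigOperators

/-! The Cook-Mertz catalytic evaluation scheme with four registers. -/

namespace Pool.Agent.Work.MP_76e736_lc

open Finset

theorem sum_prod_linear {K J : Type} [Field K] [Fintype K] [Fintype J]
    (h : Fintype.card J < Fintype.card K - 1) (a b : J → K) :
    ∑ x : K, ∏ j, (x * a j + b j) = 0 := by
  classical
  let P : Polynomial K := ∏ j, (Polynomial.C (a j) * Polynomial.X + Polynomial.C (b j))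
  have hP : P.natDegree ≤ Fintype.card J := by
    refine (Polynomial.natDegree_prod_le _ _).trans ?_
    have h1 : ∀ j ∈ (univ : Finset J),
        (Polynomial.C (a j) * Polynomial.X + Polynomial.C (b j)).natDegree ≤ 1 :=
      fun j _ => Polynomial.natDegree_linear_le
    simpa using Finset.sum_le_card_nsmul _ _ _ h1
  have he : ∀ x : K, ∏ j, (x * a j + b j) = P.eval x := by
    intro x
    simp only [P, Polynomial.eval_prod, Polynomial.eval_add, Polynomial.eval_mul,
      Polynomial.eval_C, Polynomial.eval_X]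
    exact Finset.prod_congr rfl (fun j _ => by ring)
  simp_rw [he, Polynomial.eval_eq_sum_range]
  rw [Finset.sum_comm]
  refine Finset.sum_eq_zero (fun i hi => ?_)
  rw [← Finset.mul_sum, FiniteField.sum_pow_lt_card_sub_one K i, mul_zero]
  have := Finset.mem_range.1 hi
  omega

section
variable {α I K : Type} [Fintype α] [DecidableEq α] [Fintype I] [DecidableEq I] [Field K]

/-- One-hot encoding of a block. -/
def oh (x : I → α) : I → α → K := fun r a => if x r = a then 1 else 0

/-- Low-degree extension of `Φ`. -/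
def lde (Φ : (Fin 3 → I → α) → I → α) (y : Fin 3 → I → α → K) : I → α → K :=
  fun r a => ∑ x : Fin 3 → I → α, oh (Φ x) r a * ∏ j : Fin 3 × I, y j.1 j.2 (x j.1 j.2)

theorem lde_oh (Φ : (Fin 3 → I → α) → I → α) (x : Fin 3 → I → α) :
    lde Φ (fun k => (oh (x k) : I → α → K)) = oh (Φ x) := by
  funext r a
  unfold lde
  rw [Finset.sum_eq_single x]
  · simp [oh]
  · intro x' _ hne
    have : ∃ j : Fin 3 × I, x j.1 j.2 ≠ x' j.1 j.2 := by
      by_contra hc
      push Not at hc
      exact hne (funext fun k => funext fun r => (hc (k, r)).symm)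
    obtain ⟨j, hj⟩ := this
    rw [Finset.prod_eq_zero (Finset.mem_univ j), mul_zero]
    simp [oh, hj]
  · simp

theorem sum_lde [Fintype K] (h : 3 * Fintype.card I < Fintype.card K - 1)
    (Φ : (Fin 3 → I → α) → I → α) (τ e : Fin 3 → I → α → K) :
    ∑ c : K, lde Φ (fun k => c • τ k + e k) = 0 := by
  funext r a
  simp only [Finset.sum_apply, lde, Pi.zero_apply]
  rw [Finset.sum_comm]
  refine Finset.sum_eq_zero (fun x _ => ?_)
  rw [← Finset.mul_sum]
  simp only [Pi.add_apply, Pi.smul_apply, smul_eq_mul]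
  rw [sum_prod_linear (by simpa using h), mul_zero]

omit [Fintype α] [Fintype I] [DecidableEq I] in
theorem oh_injective : Function.Injective (oh : (I → α) → I → α → K) := by
  intro x y h
  funext r
  have := congrFun (congrFun h r) (x r)
  by_contra hc
  simp [oh, Ne.symm hc] at this

abbrev Regs (α I K : Type) := Fin 4 → I → α → K

def sg (s : Bool) : K := if s then 1 else -1

def cmAdd (γ : Fin 4 × Bool) (a : I → α) (R : Regs α I K) : Regs α I K :=
  Function.update R γ.1 (R γ.1 + (sg γ.2 : K) • oh a)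

def scale (t : Fin 4) (c : K) (R : Regs α I K) : Regs α I K :=
  fun k => if k = t then R k else c • R k

def accum (Φ : (Fin 3 → I → α) → I → α) (γ : Fin 4 × Bool) (R : Regs α I K) : Regs α I K :=
  Function.update R γ.1 (R γ.1 - (sg γ.2 : K) • lde Φ (fun k => R (γ.1.succAbove k)))

def cmBlock (Φ : (Fin 3 → I → α) → I → α) (γ : Fin 4 × Bool) (c : K) :
    List (Ins (Fin 4 × Bool) (Regs α I K)) :=
  [.op (scale γ.1 c), .call (γ.1.succAbove 0, true) 0, .call (γ.1.succAbove 1, true) 1,
    .call (γ.1.succAbove 2, true) 2, .op (accum Φ γ), .call (γ.1.succAbove 0, false) 0,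
    .call (γ.1.succAbove 1, false) 1, .call (γ.1.succAbove 2, false) 2, .op (scale γ.1 c⁻¹)]

omit [Fintype α] [Fintype I] [DecidableEq I] in
theorem add3 (t : Fin 4) (s : Bool) (x : Fin 3 → I → α) (R : Regs α I K) :
    cmAdd (t.succAbove 2, s) (x 2) (cmAdd (t.succAbove 1, s) (x 1) (cmAdd (t.succAbove 0, s) (x 0) R)) t
      = R t ∧ ∀ k : Fin 3,
    cmAdd (t.succAbove 2, s) (x 2) (cmAdd (t.succAbove 1, s) (x 1) (cmAdd (t.succAbove 0, s) (x 0) R))
      (t.succAbove k) = R (t.succAbove k) + (sg s : K) • oh (x k) := by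
  have hne : ∀ k : Fin 3, t ≠ t.succAbove k := fun k => (Fin.succAbove_ne t k).symm
  refine ⟨by simp [cmAdd, Function.update_of_ne, hne], fun k => ?_⟩
  fin_cases k <;> simp [cmAdd, Function.update_of_ne]

theorem cmBlock_exec (Φ : (Fin 3 → I → α) → I → α) (γ : Fin 4 × Bool) (c : K) (hc : c ≠ 0)
    (x : Fin 3 → I → α) (R : Regs α I K) :
    (cmBlock Φ γ c).foldl (Ins.exec cmAdd x) R
      = Function.update R γ.1
          (R γ.1 - (sg γ.2 : K) • lde Φ (fun k => c • R (γ.1.succAbove k) + oh (x k))) := by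
  obtain ⟨t, s⟩ := γ
  simp only [cmBlock, List.foldl_cons, List.foldl_nil, Ins.exec]
  obtain ⟨a1, a2⟩ := add3 t true x (scale t c R)
  set R1 := cmAdd (t.succAbove 2, true) (x 2) (cmAdd (t.succAbove 1, true) (x 1)
    (cmAdd (t.succAbove 0, true) (x 0) (scale t c R))) with hR1
  obtain ⟨b1, b2⟩ := add3 t false x (accum Φ (t, s) R1)
  funext k
  rcases Fin.eq_self_or_eq_succAbove t k with rfl | ⟨k, rfl⟩
  · simp only [scale, if_true, b1]
    simp only [scale, if_true, accum, Function.update_self, a1, a2, Fin.succAbove_ne, if_false]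
    simp [sg]
  · simp only [scale, Fin.succAbove_ne, if_false, b2]
    simp only [scale, Fin.succAbove_ne, if_false, accum, ne_eq, not_false_eq_true,
      Function.update_of_ne, a2]
    simp [sg, smul_smul, hc]

theorem cmList_exec (Φ : (Fin 3 → I → α) → I → α) (γ : Fin 4 × Bool) (x : Fin 3 → I → α)
    (l : List K) (hl : ∀ c ∈ l, c ≠ 0) (R : Regs α I K) :
    (l.flatMap (cmBlock Φ γ)).foldl (Ins.exec cmAdd x) R
      = Function.update R γ.1 (R γ.1 - (sg γ.2 : K) •
          (l.map (fun c => lde Φ (fun k => c • R (γ.1.succAbove k) + oh (x k)))).sum) := by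
  induction l generalizing R with
  | nil => simp
  | cons c l ih =>
    rw [List.flatMap_cons, List.foldl_append, cmBlock_exec Φ γ c (hl c (by simp)),
      ih (fun c' hc' => hl c' (by simp [hc']))]
    simp only [Function.update_self, Function.update_idem, ne_eq, Fin.succAbove_ne,
      not_false_eq_true, Function.update_of_ne, List.map_cons, List.sum_cons, smul_add]
    congr 1
    abel

/-- The Cook-Mertz scheme. -/
theorem cm_scheme [Fintype K] (h : 3 * Fintype.card I < Fintype.card K - 1)
    (Φ : (Fin 3 → I → α) → I → α) :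
    ∃ prog : Fin 4 × Bool → List (Ins (Fin 4 × Bool) (Regs α I K)),
      (∀ γ, (prog γ).length ≤ 9 * Fintype.card K) ∧
      ∀ γ x g, (prog γ).foldl (Ins.exec cmAdd x) g = cmAdd γ (Φ x) g := by
  classical
  refine ⟨fun γ => ((univ.erase (0 : K)).toList).flatMap (cmBlock Φ γ), fun γ => ?_, ?_⟩
  · rw [List.length_flatMap]
    simp only [cmBlock, List.length_cons, List.length_nil, List.map_const', List.sum_replicate,
      Finset.length_toList, smul_eq_mul]
    have : (univ.erase (0 : K)).card ≤ Fintype.card K := Finset.card_le_univ _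
    omega
  · intro γ x g
    rw [cmList_exec Φ γ x _ (by simp), Finset.sum_map_toList]
    have h1 := sum_lde h Φ (fun k => g (γ.1.succAbove k)) (fun k => oh (x k))
    rw [← Finset.add_sum_erase _ _ (Finset.mem_univ (0 : K))] at h1
    simp only [zero_smul, zero_add, lde_oh] at h1
    rw [eq_neg_of_add_eq_zero_right h1]
    simp [cmAdd]

end

end Pool.Agent.Work.MP_76e736_lc
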