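import Pool.Agent.Work.MP_76e736_lc.Walker
import Mathlib.Data.Fintype.Pi
import Mathlib.Data.Fintype.Prod
import Mathlib.Data.Fintype.Sum
import Mathlib.Data.Fintype.Option
import Mathlib.Tactic.DeriveFintype

/-! Multi-head linear bounded machines, simulated by the sweeping head. -/

namespace Pool.Agent.Work.MP_76e736_lc

/-- Head moves: left, stay, right, jump to the left end. -/
inductive Mv : Type
  | L | S | R | Z
  deriving DecidableEq, Fintype

def Mv.app (n : ℕ) : Mv → ℕ → ℕ
  | .L, p => p - 1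
  | .S, p => p
  | .R, p => min (p + 1) n
  | .Z, _ => 0

theorem Mv.app_le (n : ℕ) (m : Mv) (p : ℕ) (h : p ≤ n) : m.app n p ≤ n := by
  cases m <;> simp [Mv.app] <;> omega

structure HCfg (Q K W : Type) where
  q : Q
  pos : K → ℕ
  work : ℕ → W

abbrev HObs (S W : Type) := Option (S × W) × Bool

def wupd {W : Type} (work : ℕ → W) (p : ℕ) : Option W → ℕ → W
  | none => work
  | some b => Function.update work p b

section
variable {S Q K W : Type}

def hobs (w : List S) (c : HCfg Q K W) (k : K) : HObs S W :=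
  ((w[c.pos k]?).map (fun a => (a, c.work (c.pos k))), decide (c.pos k = 0))

variable (δ : Q → (K → HObs S W) → Q × (K → Mv) × Option W) (wh : K) (acc : Q → Bool)

def hnext (w : List S) (c : HCfg Q K W) : HCfg Q K W :=
  ⟨(δ c.q (hobs w c)).1, fun k => ((δ c.q (hobs w c)).2.1 k).app w.length (c.pos k),
    wupd c.work (c.pos wh) (δ c.q (hobs w c)).2.2⟩

def hstep (w : List S) (c : HCfg Q K W) : HCfg Q K W :=
  if acc c.q then c else hnext δ wh w c

def hinit (q0 : Q) (w0 : W) (w : List S) : HCfg Q K W := ⟨q0, fun _ => w.length, fun _ => w0⟩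

abbrev Cell (S K W : Type) := S × W × (K → Bool) × Option (K → Bool)

abbrev GSt (S Q K W : Type) :=
  (Q × (K → Option (S × W)) × (K → Bool) × (K → Bool)) ⊕ (Q × (K → Mv) × Option W × (K → Bool))

def hfR : GSt S Q K W → Cell S K W → GSt S Q K W × Cell S K W
  | .inr x, c =>
    (.inl (x.1, fun k => if c.2.2.1 k then some (c.1, c.2.1) else none, c.2.2.1, c.2.2.1),
      (c.1, c.2.1, c.2.2.1, none))
  | .inl x, c =>
    (.inl (x.1, fun k => if c.2.2.1 k then some (c.1, c.2.1) else x.2.1 k, x.2.2.1, c.2.2.1),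
      (c.1, c.2.1, c.2.2.1, some x.2.2.2))

def newMk (m : Mv) (own carry : Bool) (pv : Option Bool) : Bool :=
  match m with
  | .S => own
  | .L => carry || (own && pv.isNone)
  | .R => pv.getD false
  | .Z => pv.isNone

def updL (a : Q × (K → Mv) × Option W) (carry : K → Bool) (c : Cell S K W) :
    GSt S Q K W × Cell S K W :=
  (.inr (a.1, a.2.1, a.2.2, c.2.2.1),
    (c.1, if c.2.2.1 wh then a.2.2.getD c.2.1 else c.2.1,
      fun k => newMk (a.2.1 k) (c.2.2.1 k) (carry k) (c.2.2.2.map (fun f => f k)), c.2.2.2))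

def hfL : GSt S Q K W → Cell S K W → GSt S Q K W × Cell S K W
  | .inl x, c =>
    updL wh (δ x.1 (fun k => (x.2.1 k, x.2.2.1 k))) (fun k => (x.2.1 k).isNone) c
  | .inr x, c => updL wh (x.1, x.2.1, x.2.2.1) x.2.2.2 c

def hgacc : GSt S Q K W → Bool
  | .inl _ => false
  | .inr x => acc x.1

def mk (pos : K → ℕ) (j : ℕ) : K → Bool := fun k => decide (pos k = j)

def pvOf (pos : K → ℕ) (j : ℕ) : Option (K → Bool) :=
  if j = 0 then none else some (mk pos (j - 1))

def Base (w : List S) (h : HCfg Q K W) (τ : ℕ → Cell S K W) (j : ℕ) : Prop :=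
  w[j]? = some (τ (j + 1)).1 ∧ (τ (j + 1)).2.1 = h.work j ∧ (τ (j + 1)).2.2.1 = mk h.pos j

def HRel (w : List S) (h : HCfg Q K W) (c : WCfg (GSt S Q K W) (Cell S K W)) : Prop :=
  (∀ k, h.pos k ≤ w.length) ∧ c.p = 1 ∧ c.d = false ∧ (∃ x, c.g = .inr (h.q, x)) ∧
    ∀ j, j < w.length → Base w h c.τ j

def InvR (w : List S) (h : HCfg Q K W) (p : ℕ) (c : WCfg (GSt S Q K W) (Cell S K W)) : Prop :=
  c.p = p ∧ c.d = true ∧
    c.g = .inl (h.q, fun k => if h.pos k < p then (hobs w h k).1 else none, mk h.pos 0,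
      mk h.pos (p - 1)) ∧
    (∀ j, j < w.length → Base w h c.τ j) ∧ ∀ j, j < p → (c.τ (j + 1)).2.2.2 = pvOf h.pos j

def InvL (w : List S) (h : HCfg Q K W) (p : ℕ) (c : WCfg (GSt S Q K W) (Cell S K W)) : Prop :=
  c.p = p ∧ c.d = false ∧
    c.g = .inr ((δ h.q (hobs w h)).1, (δ h.q (hobs w h)).2.1, (δ h.q (hobs w h)).2.2,
      mk h.pos (p - 1)) ∧
    (∀ j, j < w.length → p ≤ j + 1 → Base w (hnext δ wh w h) c.τ j) ∧
    ∀ j, j + 1 < p → Base w h c.τ j ∧ (c.τ (j + 1)).2.2.2 = pvOf h.pos j

theorem base_update_ne (w : List S) (h : HCfg Q K W) (τ : ℕ → Cell S K W) (j i : ℕ)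
    (x : Cell S K W) (hne : j + 1 ≠ i) (hb : Base w h τ j) :
    Base w h (Function.update τ i x) j := by
  unfold Base at *
  rw [Function.update_of_ne hne]
  exact hb

theorem rel_invR (w : List S) (hw : 1 ≤ w.length) (h : HCfg Q K W)
    (c : WCfg (GSt S Q K W) (Cell S K W)) (hR : HRel w h c) (hacc : acc h.q = false) :
    InvR w h 1 (wstep hfR (hfL δ wh) (hgacc acc) w.length c) := by
  obtain ⟨-, hp, hd, ⟨x, hg⟩, hb⟩ := hR
  obtain ⟨p, g, d, τ⟩ := c
  simp only at hp hd hg hb
  subst hp hd hg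
  obtain ⟨b1, b2, b3⟩ := hb 0 hw
  simp only [zero_add] at b1 b2 b3
  have e : wstep hfR (hfL δ wh) (hgacc acc) w.length ⟨1, .inr (h.q, x), false, τ⟩
      = ⟨1, (hfR (.inr (h.q, x)) (τ 1)).1, true,
          Function.update τ 1 (hfR (.inr (h.q, x)) (τ 1)).2⟩ := by
    simp [wstep, hgacc, hacc]
  rw [e]
  refine ⟨rfl, rfl, ?_, ?_, ?_⟩
  · simp only [hfR, b3, b2, Nat.sub_self, Sum.inl.injEq, Prod.mk.injEq, and_true, true_and]
    funext k
    by_cases e : h.pos k = 0
    · simp [mk, e, hobs, b1]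
    · simp [mk, e]
  · intro j hj
    by_cases e : j = 0
    · subst e
      simp [Base, hfR, b1, b2, b3]
    · exact base_update_ne _ _ _ _ _ _ (by omega) (hb j hj)
  · intro j hj
    have : j = 0 := by omega
    subst this
    simp [hfR, pvOf]

theorem invR_succ (w : List S) (h : HCfg Q K W) (p : ℕ) (hp1 : 1 ≤ p) (hp : p < w.length)
    (c : WCfg (GSt S Q K W) (Cell S K W)) (hR : InvR w h p c) :
    InvR w h (p + 1) (wstep hfR (hfL δ wh) (hgacc acc) w.length c) := by
  obtain ⟨hp', hd, hg, hb, hv⟩ := hR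
  obtain ⟨p', g, d, τ⟩ := c
  simp only at hp' hd hg hb hv
  subst hp' hd
  obtain ⟨b1, b2, b3⟩ := hb p' hp
  have e : wstep hfR (hfL δ wh) (hgacc acc) w.length ⟨p', g, true, τ⟩
      = ⟨p' + 1, (hfR g (τ (p' + 1))).1, true,
          Function.update τ (p' + 1) (hfR g (τ (p' + 1))).2⟩ := by
    simp [wstep, hp]
  rw [e]
  subst hg
  refine ⟨rfl, rfl, ?_, ?_, ?_⟩
  · simp only [hfR, b3, b2, Nat.add_sub_cancel, Sum.inl.injEq, Prod.mk.injEq, and_true, true_and]
    funext k
    by_cases e : h.pos k = p'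
    · simp [mk, e, hobs, b1]
    · by_cases e2 : h.pos k < p'
      · have : h.pos k < p' + 1 := by omega
        simp [mk, e, e2, this]
      · have : ¬ h.pos k < p' + 1 := by omega
        simp [mk, e, e2, this]
  · intro j hj
    by_cases e : j = p'
    · subst e
      simp [Base, hfR, b1, b2, b3]
    · exact base_update_ne _ _ _ _ _ _ (by omega) (hb j hj)
  · intro j hj
    by_cases e : j = p'
    · subst e
      have : j ≠ 0 := by omega
      simp [hfR, pvOf, this]
    · simp only
      rw [Function.update_of_ne (by omega)]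
      exact hv j (by omega)

theorem newMk_spec (n : ℕ) (m : Mv) (p j : ℕ) (hj : j < n) :
    newMk m (decide (p = j)) (decide (p = j + 1))
      (if j = 0 then none else some (decide (p = j - 1))) = decide (m.app n p = j) := by
  rw [Bool.eq_iff_iff]
  by_cases e : j = 0
  · subst e
    cases m <;> simp [newMk, Mv.app] <;> omega
  · cases m <;> simp [newMk, Mv.app, e] <;> omega

theorem updL_base (w : List S) (h : HCfg Q K W) (τ : ℕ → Cell S K W) (j : ℕ)
    (hj : j < w.length) (hb : Base w h τ j) (hv : (τ (j + 1)).2.2.2 = pvOf h.pos j) :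
    Base w (hnext δ wh w h)
      (Function.update τ (j + 1)
        (updL wh (δ h.q (hobs w h)) (mk h.pos (j + 1)) (τ (j + 1))).2) j := by
  obtain ⟨b1, b2, b3⟩ := hb
  refine ⟨?_, ?_, ?_⟩
  · simp [updL, b1]
  · simp only [Function.update_self, updL, b2, b3, hnext, mk]
    cases hwr : (δ h.q (hobs w h)).2.2 with
    | none => simp [wupd]
    | some b =>
      by_cases e : h.pos wh = j
      · simp [wupd, e]
      · simp [wupd, e, Function.update_of_ne (Ne.symm e)]
  · simp only [Function.update_self, updL, b3, hv]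
    funext k
    have := newMk_spec w.length ((δ h.q (hobs w h)).2.1 k) (h.pos k) j hj
    refine Eq.trans ?_ this
    simp only [mk, pvOf]
    congr 1
    split_ifs <;> simp [mk]

theorem invR_invL (w : List S) (hw : 1 ≤ w.length) (h : HCfg Q K W)
    (hle : ∀ k, h.pos k ≤ w.length)
    (c : WCfg (GSt S Q K W) (Cell S K W)) (hR : InvR w h w.length c) :
    InvL δ wh w h w.length (wstep hfR (hfL δ wh) (hgacc acc) w.length c) := by
  obtain ⟨hp', hd, hg, hb, hv⟩ := hR
  obtain ⟨p', g, d, τ⟩ := c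
  simp only at hp' hd hg hb hv
  subst hd
  obtain ⟨m, hm⟩ : ∃ m, w.length = m + 1 := ⟨w.length - 1, by omega⟩
  have e : wstep hfR (hfL δ wh) (hgacc acc) w.length ⟨p', g, true, τ⟩
      = ⟨p', (hfL δ wh g (τ p')).1, false, Function.update τ p' (hfL δ wh g (τ p')).2⟩ := by
    simp [wstep, hp']
  rw [e]
  have e2 : hfL δ wh g (τ p') = updL wh (δ h.q (hobs w h)) (mk h.pos (m + 1)) (τ (m + 1)) := by
    subst hg
    simp only [hfL, hp', hm]
    congr 1
    · congr 1
      funext k
      by_cases e : h.pos k < m + 1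
      · simp [e, hobs, mk]
      · have : w.length ≤ h.pos k := by omega
        simp [e, hobs, mk, this]
    · funext k
      have := hle k
      by_cases e : h.pos k < m + 1
      · have h3 : h.pos k < w.length := by omega
        have h4 : ¬ h.pos k = m + 1 := by omega
        simp [e, hobs, mk, h3, h4]
      · have h4 : h.pos k = m + 1 := by omega
        simp [mk, h4]
  rw [e2]
  have hpm : p' = m + 1 := by omega
  subst hpm
  have hbm := hb m (by omega)
  refine ⟨hp', rfl, ?_, ?_, ?_⟩
  · simp [updL, hbm.2.2, hm]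
  · intro j hj hj'
    have : j = m := by omega
    subst this
    exact updL_base δ wh w h τ j hj hbm (hv j hj)
  · intro j hj
    refine ⟨base_update_ne _ _ _ _ _ _ (by omega) (hb j (by omega)), ?_⟩
    simp only
    rw [Function.update_of_ne (by omega)]
    exact hv j (by omega)

theorem invL_pred (w : List S) (h : HCfg Q K W) (p : ℕ) (hp : p + 2 ≤ w.length)
    (c : WCfg (GSt S Q K W) (Cell S K W)) (hR : InvL δ wh w h (p + 2) c) :
    InvL δ wh w h (p + 1) (wstep hfR (hfL δ wh) (hgacc acc) w.length c) := by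
  obtain ⟨hp', hd, hg, hb, hv⟩ := hR
  obtain ⟨p', g, d, τ⟩ := c
  simp only at hp' hd hg hb hv
  subst hd hp'
  have e : wstep hfR (hfL δ wh) (hgacc acc) w.length ⟨p + 2, g, false, τ⟩
      = ⟨p + 1, (hfL δ wh g (τ (p + 1))).1, false,
          Function.update τ (p + 1) (hfL δ wh g (τ (p + 1))).2⟩ := by
    simp [wstep]
  rw [e]
  have e2 : hfL δ wh g (τ (p + 1))
      = updL wh (δ h.q (hobs w h)) (mk h.pos (p + 1)) (τ (p + 1)) := by
    subst hg
    simp [hfL]
  rw [e2]
  obtain ⟨hbm, hvm⟩ := hv p (by omega)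
  refine ⟨rfl, rfl, ?_, ?_, ?_⟩
  · simp [updL, hbm.2.2]
  · intro j hj hj'
    by_cases e : j = p
    · subst e
      exact updL_base δ wh w h τ j hj hbm hvm
    · exact base_update_ne _ _ _ _ _ _ (by omega) (hb j hj (by omega))
  · intro j hj
    refine ⟨base_update_ne _ _ _ _ _ _ (by omega) (hv j (by omega)).1, ?_⟩
    simp only
    rw [Function.update_of_ne (by omega)]
    exact (hv j (by omega)).2

theorem hrel_step (w : List S) (hw : 1 ≤ w.length) (h : HCfg Q K W)
    (c : WCfg (GSt S Q K W) (Cell S K W)) (hR : HRel w h c) :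
    ∃ t, 1 ≤ t ∧ HRel w (hstep δ wh acc w h)
      ((wstep hfR (hfL δ wh) (hgacc acc) w.length)^[t] c) := by
  cases hacc : acc h.q with
  | true =>
    refine ⟨1, le_rfl, ?_⟩
    have e1 : hstep δ wh acc w h = h := by simp [hstep, hacc]
    have e2 : wstep hfR (hfL δ wh) (hgacc acc) w.length c = c := by
      obtain ⟨-, hp, hd, ⟨x, hg⟩, -⟩ := hR
      simp [wstep, hp, hd, hg, hgacc, hacc]
    rw [e1, Function.iterate_one, e2]
    exact hR
  | false =>
    have e1 : hstep δ wh acc w h = hnext δ wh w h := by simp [hstep, hacc]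
    rw [e1]
    set f := wstep hfR (hfL δ wh) (hgacc acc) w.length with hf
    have hRp : ∀ p, p + 1 ≤ w.length → InvR w h (p + 1) (f^[p + 1] c) := by
      intro p
      induction p with
      | zero => intro _; exact rel_invR δ wh acc w hw h c hR hacc
      | succ p ih =>
        intro hp
        rw [Function.iterate_succ_apply']
        exact invR_succ δ wh acc w h (p + 1) (by omega) (by omega) _ (ih (by omega))
    obtain ⟨m, hm⟩ : ∃ m, w.length = m + 1 := ⟨w.length - 1, by omega⟩
    have hLn : InvL δ wh w h w.length (f^[m + 2] c) := by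
      rw [Function.iterate_succ_apply']
      refine invR_invL δ wh acc w hw h hR.1 _ ?_
      have := hRp m (by omega)
      rw [← hm] at this ⊢
      exact this
    have hLp : ∀ u p, p + u = m → InvL δ wh w h (p + 1) (f^[u + (m + 2)] c) := by
      intro u
      induction u with
      | zero =>
        intro p hp
        have : p + 1 = w.length := by omega
        rw [this, zero_add]
        exact hLn
      | succ u ih =>
        intro p hp
        rw [show u + 1 + (m + 2) = (u + (m + 2)) + 1 by omega, Function.iterate_succ_apply']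
        exact invL_pred δ wh acc w h p (by omega) _ (ih (p + 1) (by omega))
    obtain ⟨a1, a2, a3, a4, -⟩ := hLp m 0 (by omega)
    refine ⟨m + (m + 2), by omega, ?_, a1, a2, ⟨_, a3⟩, fun j hj => a4 j hj (by omega)⟩
    intro k
    exact Mv.app_le _ _ _ (hR.1 k)

/-- Every multi-head linear bounded machine is simulated by a cellular array. -/
theorem heads_ca [Fintype S] [Fintype Q] [Fintype K] [Fintype W] [DecidableEq K]
    (s0 : S) (q0 : Q) (w0 : W) :
    ∃ (St : Type) (_ : Fintype St) (δ' : Option St → Option St → Option St → St) (ini : S → St)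
      (F : St → Prop), ∀ w : List S, 1 ≤ w.length →
        ((∃ t, caAccAt δ' ini F w t) ↔
          ∃ t, acc ((hstep δ wh acc w)^[t] (hinit q0 w0 w)).q = true) := by
  let c0 : Cell S K W := (s0, w0, fun _ => false, none)
  let g0 : GSt S Q K W := .inr (q0, fun _ => .S, none, fun _ => false)
  let ini : S → Cell S K W := fun a => (a, w0, fun _ => false, none)
  refine ⟨WSt (GSt S Q K W) (Cell S K W), inferInstance,
    wdel hfR (hfL δ wh) (hgacc acc) c0 g0, fun a => (ini a, none, true), wF (hgacc acc), ?_⟩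
  intro w hw
  rw [walker_ca hfR (hfL δ wh) (hgacc acc) c0 g0 ini w hw]
  symm
  refine sim (hstep δ wh acc w) (wstep hfR (hfL δ wh) (hgacc acc) w.length) (HRel w)
    (fun h => acc h.q = true) (wacc (hgacc acc)) (fun a b hab => hrel_step δ wh acc w hw a b hab)
    ?_ (wacc_sticky _ _ _ _) _ _ ?_
  · rintro a b ⟨-, hp, hd, ⟨x, hg⟩, -⟩
    simp [wacc, hp, hd, hg, hgacc]
  · refine ⟨fun k => le_rfl, rfl, rfl, ⟨_, rfl⟩, ?_⟩
    intro j hj
    refine ⟨?_, ?_, ?_⟩
    · simp [winit, hj, ini]
    · simp [winit, hj, ini, hinit]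
    · funext k
      have : ¬ w.length = j := by omega
      simp [winit, hj, ini, hinit, mk, this]

end

end Pool.Agent.Work.MP_76e736_lc
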