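import Pool.Agent.Work.MP_76e736_lc.Univ
import Mathlib.Data.Set.Finite.Lattice
import Mathlib.Data.Set.Finite.Range

/-! Decision-tree programs for two-head machines. -/

namespace Pool.Agent.Work.MP_76e736_lc

/-- A finite decision tree of observations and actions, ending in a label. -/
inductive Prog (L : Type) : Type
  | go (l : L) : Prog L
  | step (act : Obs → Act) (next : Obs → Prog L) : Prog L

namespace Prog
variable {L L' : Type}

def run (w : List Sym) : Prog L → Env → L × Env
  | go l, e => (l, e)
  | step a nx, e => run w (nx (eobs w e)) (eapp w.length (a (eobs w e)) e)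

def bind : Prog L → (L → Prog L') → Prog L'
  | go l, f => f l
  | step a nx, f => step a (fun o => bind (nx o) f)

theorem run_bind (w : List Sym) (p : Prog L) (f : L → Prog L') (e : Env) :
    (p.bind f).run w e = (f (p.run w e).1).run w (p.run w e).2 := by
  induction p generalizing e with
  | go l => rfl
  | step a nx ih => exact ih _ _

def subs : Prog L → Set (Prog L)
  | go l => {go l}
  | step a nx => insert (step a nx) (⋃ o, subs (nx o))

theorem subs_finite (p : Prog L) : p.subs.Finite := by
  induction p with
  | go l => exact Set.finite_singleton _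
  | step a nx ih => exact (Set.finite_iUnion ih).insert _

theorem self_mem_subs (p : Prog L) : p ∈ p.subs := by
  cases p with
  | go l => exact Set.mem_singleton _
  | step a nx => exact Set.mem_insert _ _

theorem next_mem_subs (q : Prog L) (a : Obs → Act) (nx : Obs → Prog L) (o : Obs)
    (h : step a nx ∈ q.subs) : nx o ∈ q.subs := by
  induction q with
  | go l => cases h
  | step a' nx' ih =>
    rcases h with h | h
    · cases h
      exact Or.inr (Set.mem_iUnion.2 ⟨o, self_mem_subs _⟩)
    · obtain ⟨o', ho'⟩ := Set.mem_iUnion.1 h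
      exact Or.inr (Set.mem_iUnion.2 ⟨o', ih o' ho'⟩)

end Prog

/-- One macro step of a machine whose labels carry decision-tree programs. -/
def lstep {L : Type} (prog : L → Prog L) (acc : L → Bool) (w : List Sym) (c : L × Env) :
    L × Env :=
  if acc c.1 then c else (prog c.1).run w c.2

section
variable {L : Type} (prog : L → Prog L) (acc : L → Bool)

def pstates : Set (Prog L) := (⋃ l, (prog l).subs) ∪ Set.range Prog.go

theorem go_mem (l : L) : Prog.go l ∈ pstates prog := Or.inr ⟨l, rfl⟩

theorem prog_mem (l : L) : prog l ∈ pstates prog :=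
  Or.inl (Set.mem_iUnion.2 ⟨l, Prog.self_mem_subs _⟩)

theorem next_mem (a : Obs → Act) (nx : Obs → Prog L) (o : Obs)
    (h : Prog.step a nx ∈ pstates prog) : nx o ∈ pstates prog := by
  rcases h with h | ⟨l, h⟩
  · obtain ⟨l, hl⟩ := Set.mem_iUnion.1 h
    exact Or.inl (Set.mem_iUnion.2 ⟨l, Prog.next_mem_subs _ _ _ _ hl⟩)
  · cases h

def pdel : pstates prog → Obs → pstates prog × Act
  | ⟨.go l, _⟩, _ => (⟨prog l, prog_mem prog l⟩, noop)
  | ⟨.step a nx, h⟩, o => (⟨nx o, next_mem prog a nx o h⟩, a o)

def pacc : pstates prog → Bool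
  | ⟨.go l, _⟩ => acc l
  | ⟨.step _ _, _⟩ => false

theorem reach_run (w : List Sym) (p : Prog L) :
    ∀ (hp : p ∈ pstates prog) (e : Env),
      Reach (pstep (pdel prog) (pacc prog acc) w) (⟨p, hp⟩, e)
        (⟨.go (p.run w e).1, go_mem prog _⟩, (p.run w e).2) := by
  induction p with
  | go l => intro hp e; exact Reach.refl _ _
  | step a nx ih =>
    intro hp e
    exact Reach.head (ih _ (next_mem prog a nx _ hp) _)

theorem prog_machine [Finite L] (l0 : L) :
    ∃ (St : Type) (_ : Fintype St) (δ : St → Obs → St × Act) (accP : St → Bool) (s0 : St),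
      ∀ w : List Sym, ((∃ t, accP ((pstep δ accP w)^[t] (s0, env0)).1 = true) ↔
        ∃ t, acc ((lstep prog acc w)^[t] (l0, env0)).1 = true) := by
  have hfin : (pstates prog).Finite :=
    (Set.finite_iUnion (fun l => Prog.subs_finite _)).union (Set.finite_range _)
  refine ⟨pstates prog, hfin.fintype, pdel prog, pacc prog acc, ⟨.go l0, go_mem prog l0⟩, ?_⟩
  intro w
  symm
  refine sim (lstep prog acc w) (pstep (pdel prog) (pacc prog acc) w)
    (fun c u => u = (⟨.go c.1, go_mem prog _⟩, c.2)) (fun c => acc c.1 = true)
    (fun u => pacc prog acc u.1 = true) ?_ ?_ ?_ _ _ rfl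
  · rintro ⟨l, e⟩ u rfl
    cases hacc : acc l with
    | true =>
      refine ⟨1, le_rfl, ?_⟩
      simp [pstep, lstep, pacc, hacc]
    | false =>
      have : Reach (pstep (pdel prog) (pacc prog acc) w)
          (pstep (pdel prog) (pacc prog acc) w (⟨.go l, go_mem prog _⟩, e))
          (⟨.go ((prog l).run w e).1, go_mem prog _⟩, ((prog l).run w e).2) := by
        have h1 : pstep (pdel prog) (pacc prog acc) w (⟨.go l, go_mem prog _⟩, e)
            = (⟨prog l, prog_mem prog l⟩, e) := by
          simp [pstep, pacc, hacc, pdel]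
        rw [h1]
        exact reach_run prog acc w _ _ _
      obtain ⟨t, ht, h⟩ := this.pos
      refine ⟨t, ht, ?_⟩
      rw [h]
      simp [lstep, hacc]
  · rintro ⟨l, e⟩ u rfl
    simp [pacc]
  · intro b hb
    simp [pstep, hb]

end

/-! Elementary routines. -/

/-- Look at the current observation. -/
def look {L : Type} (f : Obs → Prog L) : Prog L := .step (fun _ => noop) f

theorem run_look {L : Type} (w : List Sym) (f : Obs → Prog L) (e : Env) :
    (look f).run w e = (f (eobs w e)).run w e := rfl

/-- Move the input head `k` times in direction `m`. -/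
def mvI (m : Mv) : ℕ → Prog Unit
  | 0 => .go ()
  | k + 1 => .step (fun _ => (m, .S, none)) (fun _ => mvI m k)

theorem run_mvI_R (w : List Sym) (k : ℕ) (i s : ℕ) (wk : ℕ → Bool) (h : i + k ≤ w.length) :
    (mvI .R k).run w ⟨i, s, wk⟩ = ((), ⟨i + k, s, wk⟩) := by
  induction k generalizing i with
  | zero => rfl
  | succ k ih =>
    have : Mv.app w.length .R i = i + 1 := by simp [Mv.app]; omega
    simp only [mvI, Prog.run, eapp, this, wupd]
    rw [show Mv.app w.length .S s = s from rfl, ih (i + 1) (by omega)]
    simp [Nat.add_assoc, Nat.add_comm 1 k]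

theorem run_mvI_L (w : List Sym) (k : ℕ) (i s : ℕ) (wk : ℕ → Bool) :
    (mvI .L k).run w ⟨i, s, wk⟩ = ((), ⟨i - k, s, wk⟩) := by
  induction k generalizing i with
  | zero => rfl
  | succ k ih =>
    simp only [mvI, Prog.run, eapp, wupd, Mv.app]
    rw [ih (i - 1)]
    simp [Nat.sub_sub, Nat.add_comm 1 k]

theorem run_mvI_S (w : List Sym) (k : ℕ) (e : Env) :
    (mvI .S k).run w e = ((), e) := by
  induction k with
  | zero => rfl
  | succ k ih => exact ih

/-- Read `k` input symbols moving right. -/
def rdI : ℕ → Prog (List (Option Sym))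
  | 0 => .go []
  | k + 1 => .step (fun _ => (.R, .S, none)) (fun o => (rdI k).bind (fun l => .go (o.1.1 :: l)))

theorem run_rdI (w : List Sym) (k : ℕ) (i s : ℕ) (wk : ℕ → Bool) (h : i + k ≤ w.length) :
    ∃ l : List (Option Sym), (rdI k).run w ⟨i, s, wk⟩ = (l, ⟨i + k, s, wk⟩) ∧
      ∀ r, r < k → l[r]? = some (w[i + r]?) := by
  induction k generalizing i with
  | zero => exact ⟨[], rfl, fun r hr => absurd hr (Nat.not_lt_zero _)⟩
  | succ k ih =>
    have : Mv.app w.length .R i = i + 1 := by simp [Mv.app]; omega
    obtain ⟨l, hl, hl'⟩ := ih (i + 1) (by omega)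
    refine ⟨w[i]? :: l, ?_, ?_⟩
    · simp only [rdI, Prog.run, eapp, this, wupd, Prog.run_bind]
      rw [show Mv.app w.length .S s = s from rfl, hl]
      simp [eobs, Nat.add_assoc, Nat.add_comm 1 k]
    · intro r hr
      cases r with
      | zero => simp
      | succ r =>
        simp only [List.getElem?_cons_succ]
        rw [hl' r (by omega)]
        congr 2
        omega

/-- Push a list of bits on the work tape. -/
def push : List Bool → Prog Unit
  | [] => .go ()
  | b :: l => .step (fun _ => (.S, .R, some b)) (fun _ => push l)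

theorem run_push (w : List Sym) (l : List Bool) (i s : ℕ) (wk : ℕ → Bool)
    (h : s + l.length ≤ w.length) :
    ∃ wk' : ℕ → Bool, (push l).run w ⟨i, s, wk⟩ = ((), ⟨i, s + l.length, wk'⟩) ∧
      (∀ j, j < s → wk' j = wk j) ∧ ∀ r, r < l.length → l[r]? = some (wk' (s + r)) := by
  induction l generalizing s wk with
  | nil => exact ⟨wk, rfl, fun _ _ => rfl, fun r hr => absurd hr (Nat.not_lt_zero _)⟩
  | cons b l ih =>
    simp only [List.length_cons] at h
    have : Mv.app w.length .R s = s + 1 := by simp [Mv.app]; omega
    obtain ⟨wk', h1, h2, h3⟩ := ih (s + 1) (Function.update wk s b) (by omega)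
    refine ⟨wk', ?_, ?_, ?_⟩
    · simp only [push, Prog.run, eapp, this, wupd]
      rw [show Mv.app w.length .S i = i from rfl, h1]
      simp [Nat.add_assoc, Nat.add_comm 1]
    · intro j hj
      rw [h2 j (by omega), Function.update_of_ne (by omega)]
    · intro r hr
      cases r with
      | zero => simp [h2 s (by omega)]
      | succ r =>
        simp only [List.getElem?_cons_succ]
        rw [h3 r (by simpa using hr)]
        congr 2
        omega

/-- Pop `k` bits from the work tape. -/
def pop : ℕ → List Bool → Prog (List Bool)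
  | 0, l => .go l
  | k + 1, l => .step (fun _ => (.S, .L, none)) (fun _ => look (fun o => pop k (o.2.1.getD false :: l)))

theorem run_pop (w : List Sym) (k : ℕ) (i s : ℕ) (wk : ℕ → Bool) (l : List Bool)
    (h : s + k ≤ w.length) :
    (pop k l).run w ⟨i, s + k, wk⟩ = ((List.range k).map (fun r => wk (s + r)) ++ l, ⟨i, s, wk⟩) := by
  induction k generalizing l with
  | zero => rfl
  | succ k ih =>
    have h1 : s + k < w.length := by omega
    simp only [pop, Prog.run, eapp, wupd, Mv.app, run_look]
    rw [show s + (k + 1) - 1 = s + k by omega, ih _ (by omega)]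
    simp [eobs, h1, List.range_succ]

theorem pop_push (l : List Bool) (s : ℕ) (wk : ℕ → Bool)
    (h : ∀ r, r < l.length → l[r]? = some (wk (s + r))) :
    (List.range l.length).map (fun r => wk (s + r)) = l := by
  apply List.ext_getElem?
  intro r
  by_cases hr : r < l.length
  · rw [h r hr]
    simp [hr]
  · simp [Nat.le_of_not_lt hr]

end Pool.Agent.Work.MP_76e736_lc
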