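import Pool.Agent.Work.MP_76e736_lc.Prog
import Mathlib.Tactic.FinCases
import Mathlib.Data.Finite.Sum
import Mathlib.Data.Finite.Prod

/-! A stack machine evaluating a recursion scheme over the blocks of a space-time diagram. -/

namespace Pool.Agent.Work.MP_76e736_lc

/-- Instructions of a recursion scheme: update the registers, or call a neighbour block. -/
inductive Ins (Γ G : Type) : Type
  | op (f : G → G) : Ins Γ G
  | call (γ : Γ) (d : Fin 3) : Ins Γ G

def Ins.exec {Γ G A : Type} (add : Γ → A → G → G) (x : Fin 3 → A) (g : G) : Ins Γ G → G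
  | .op f => f g
  | .call γ d => add γ (x d) g

inductive Lab (Γ G : Type) (N : ℕ) : Type
  | call (γ : Γ) (g : G) : Lab Γ G N
  | loop (γ : Γ) (i : Fin (N + 1)) (g : G) : Lab Γ G N
  | ret (g : G) : Lab Γ G N
  | done (b : Bool) : Lab Γ G N

instance {Γ G : Type} {N : ℕ} [Finite Γ] [Finite G] : Finite (Lab Γ G N) := by
  let f : (Γ × G) ⊕ (Γ × Fin (N + 1) × G) ⊕ G ⊕ Bool → Lab Γ G N := fun x =>
    match x with
    | .inl x => .call x.1 x.2
    | .inr (.inl x) => .loop x.1 x.2.1 x.2.2
    | .inr (.inr (.inl g)) => .ret g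
    | .inr (.inr (.inr b)) => .done b
  refine Finite.of_surjective f ?_
  intro l
  cases l with
  | call γ g => exact ⟨.inl (γ, g), rfl⟩
  | loop γ i g => exact ⟨.inr (.inl (γ, i, g)), rfl⟩
  | ret g => exact ⟨.inr (.inr (.inl g)), rfl⟩
  | done b => exact ⟨.inr (.inr (.inr b)), rfl⟩

def nx {N : ℕ} (i : Fin (N + 1)) : Fin (N + 1) := ⟨min (i.val + 1) N, by omega⟩

def dmv (d : Fin 3) : Mv := if d = 0 then .L else if d = 1 then .S else .R
def bmv (d : Fin 3) : Mv := if d = 0 then .R else if d = 1 then .S else .L

section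
variable {Γ G A : Type} {N : ℕ} (B ℓ : ℕ) (add : Γ → A → G → G) (bot : A)
  (rd : List (Option Sym) → A) (prog : Γ → List (Ins Γ G)) (out : G → Bool)
  (enc : Γ × Fin (N + 1) → List Bool) (dec : List Bool → Γ × Fin (N + 1))

def dOf (f : Γ × Fin (N + 1)) : Fin 3 :=
  match (prog f.1)[f.2.val]? with
  | some (.call _ d) => d
  | _ => 1

def lprog : Lab Γ G N → Prog (Lab Γ G N)
  | .call γ g => look fun o =>
    if o.2.1.isNone then
      (rdI B).bind fun l => (mvI .L B).bind fun _ => .go (.ret (add γ (rd l) g))
    else .go (.loop γ 0 g)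
  | .loop γ i g =>
    match (prog γ)[i.val]? with
    | none => .go (.ret g)
    | some (.op f) => .go (.loop γ (nx i) (f g))
    | some (.call γ' d) => look fun o0 => (mvI (dmv d) B).bind fun _ => look fun o1 =>
      if d = 0 ∧ o0.1.2 = true then .go (.loop γ (nx i) (add γ' bot g))
      else if d = 2 ∧ o1.1.1.isNone = true then
        (mvI .L B).bind fun _ => .go (.loop γ (nx i) (add γ' bot g))
      else (push (enc (γ, i))).bind fun _ => .go (.call γ' g)
  | .ret g => look fun o =>
    if o.2.2 then .go (.done (out g))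
    else (pop ℓ []).bind fun l => (mvI (bmv (dOf prog (dec l))) B).bind fun _ =>
      .go (.loop (dec l).1 (nx (dec l).2) g)
  | .done b => .go (.done b)

def lacc : Lab Γ G N → Bool
  | .done b => b
  | _ => false

def nb (bot : A) (m : ℕ) (Y : ℕ → A) (j : ℕ) (d : Fin 3) : A :=
  if d = 0 then (if j = 0 then bot else Y (j - 1))
  else if d = 1 then Y j else (if j + 1 = m then bot else Y (j + 1))

theorem lstep_of (w : List Sym) (l : Lab Γ G N) (e : Env) (h : lacc l = false) :
    lstep (lprog B ℓ add bot rd prog out enc dec) lacc w (l, e)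
      = (lprog B ℓ add bot rd prog out enc dec l).run w e := by
  simp [lstep, h]

theorem rec_run (w : List Sym) (m : ℕ) (hB : 0 < B) (hℓ : 0 < ℓ) (hn : w.length = m * B)
    (Φ : (Fin 3 → A) → A) (X : ℕ → ℕ → A)
    (hlen : ∀ γ, (prog γ).length ≤ N)
    (hspec : ∀ γ x g, (prog γ).foldl (Ins.exec add x) g = add γ (Φ x) g)
    (henc : ∀ f, (enc f).length = ℓ) (hdec : ∀ f, dec (enc f) = f)
    (hX : ∀ τ j, j < m → X (τ + 1) j = Φ (nb bot m (X τ) j))
    (hrd : ∀ j, j < m → ∀ l : List (Option Sym),
      (∀ r, r < B → l[r]? = some (w[j * B + r]?)) → rd l = X 0 j) (τ : ℕ) :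
    ∀ j, j < m → ∀ s, s + τ * ℓ = w.length → ∀ (γ : Γ) (g : G) (wk : ℕ → Bool),
      ∃ wk' : ℕ → Bool, Reach (lstep (lprog B ℓ add bot rd prog out enc dec) lacc w)
        (.call γ g, ⟨j * B, s, wk⟩) (.ret (add γ (X τ j) g), ⟨j * B, s, wk'⟩) ∧
        ∀ i, i < s → wk' i = wk i := by
  induction τ with
  | zero =>
    intro j hj s hs γ g wk
    have hs' : ¬ s < w.length := by omega
    have hjB : j * B + B ≤ w.length := by
      rw [hn, ← Nat.succ_mul]; exact Nat.mul_le_mul_right _ hj
    obtain ⟨l, hl, hl'⟩ := run_rdI w B (j * B) s wk hjB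
    refine ⟨wk, Reach.head' ?_ (Reach.refl _ _), fun _ _ => rfl⟩
    rw [lstep_of _ _ _ _ _ _ _ _ _ _ _ _ rfl]
    simp only [lprog, run_look, eobs, hs', if_false, Option.isNone_none, if_true, Prog.run_bind,
      hl, run_mvI_L, Prog.run, Nat.add_sub_cancel, hrd j hj l hl']
  | succ τ ih =>
    intro j hj s hs γ g wk
    have hs1 : s + ℓ + τ * ℓ = w.length := by rw [← hs]; ring
    have hs' : s < w.length := by omega
    have hjB : j * B + B ≤ w.length := by
      rw [hn, ← Nat.succ_mul]; exact Nat.mul_le_mul_right _ hj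
    have inner : ∀ u i (hi : i + u = (prog γ).length) (g : G) (wk : ℕ → Bool),
        ∃ wk' : ℕ → Bool, Reach (lstep (lprog B ℓ add bot rd prog out enc dec) lacc w)
          (.loop γ ⟨i, by have := hlen γ; omega⟩ g, ⟨j * B, s, wk⟩)
          (.ret (((prog γ).drop i).foldl (Ins.exec add (nb bot m (X τ) j)) g), ⟨j * B, s, wk'⟩) ∧
          ∀ i, i < s → wk' i = wk i := by
      intro u
      induction u with
      | zero =>
        intro i hi g wk
        refine ⟨wk, Reach.head' ?_ (Reach.refl _ _), fun _ _ => rfl⟩
        rw [lstep_of _ _ _ _ _ _ _ _ _ _ _ _ rfl]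
        have h1 : (prog γ)[i]? = none := List.getElem?_eq_none (by omega)
        have h2 : (prog γ).drop i = [] := List.drop_eq_nil_of_le (by omega)
        simp only [lprog, h1, h2, Prog.run, List.foldl_nil]
      | succ u ihu =>
        intro i hi g wk
        have hlt : i < (prog γ).length := by omega
        have hN := hlen γ
        have h1 : (prog γ)[i]? = some (prog γ)[i] := List.getElem?_eq_getElem hlt
        have h2 : (prog γ).drop i = (prog γ)[i] :: (prog γ).drop (i + 1) :=
          List.drop_eq_getElem_cons hlt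
        have hnx : nx (⟨i, by omega⟩ : Fin (N + 1)) = ⟨i + 1, by omega⟩ := by
          simp only [nx, Fin.mk.injEq]; omega
        rw [h2, List.foldl_cons]
        -- it suffices to reach the next loop label
        suffices hsuf : ∃ wk' : ℕ → Bool,
            Reach (lstep (lprog B ℓ add bot rd prog out enc dec) lacc w)
            (.loop γ ⟨i, by omega⟩ g, ⟨j * B, s, wk⟩)
            (.loop γ ⟨i + 1, by omega⟩ (Ins.exec add (nb bot m (X τ) j) g (prog γ)[i]),
              ⟨j * B, s, wk'⟩) ∧ ∀ i, i < s → wk' i = wk i by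
          obtain ⟨wk1, r1, p1⟩ := hsuf
          obtain ⟨wk2, r2, p2⟩ := ihu (i + 1) (by omega) _ wk1
          exact ⟨wk2, r1.trans r2, fun i hi => by rw [p2 i hi, p1 i hi]⟩
        cases hins : (prog γ)[i] with
        | op f =>
          rw [hins] at h1
          refine ⟨wk, Reach.head' ?_ (Reach.refl _ _), fun _ _ => rfl⟩
          rw [lstep_of _ _ _ _ _ _ _ _ _ _ _ _ rfl]
          simp only [lprog, h1, Prog.run, hnx, Ins.exec]
        | call γ' d =>
          rw [hins] at h1
          -- the genuinely recursive case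
          have recur : ∀ j', j' < m →
              (mvI (bmv d) B).run w ⟨j' * B, s, wk⟩ = ((), ⟨j * B, s, wk⟩) →
              (∀ wk', (mvI (bmv d) B).run w ⟨j' * B, s, wk'⟩ = ((), ⟨j * B, s, wk'⟩)) →
              ∃ wk' : ℕ → Bool,
                Reach (lstep (lprog B ℓ add bot rd prog out enc dec) lacc w)
                (((push (enc (γ, ⟨i, by omega⟩))).bind fun _ =>
                  (.go (.call γ' g) : Prog (Lab Γ G N))).run w ⟨j' * B, s, wk⟩)
                (.loop γ ⟨i + 1, by omega⟩ (add γ' (X τ j') g), ⟨j * B, s, wk'⟩) ∧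
                ∀ i, i < s → wk' i = wk i := by
            intro j' hj' _ hback
            obtain ⟨wk1, a1, a2, a3⟩ := run_push w (enc (γ, ⟨i, by omega⟩)) (j' * B) s wk
              (by rw [henc]; omega)
            rw [henc] at a1
            obtain ⟨wk2, b1, b2⟩ := ih j' hj' (s + ℓ) hs1 γ' g wk1
            refine ⟨wk2, ?_, fun i hi => by rw [b2 i (by omega), a2 i hi]⟩
            rw [Prog.run_bind, a1]
            refine b1.trans (Reach.head' ?_ (Reach.refl _ _))
            rw [lstep_of _ _ _ _ _ _ _ _ _ _ _ _ rfl]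
            have hne : ¬ (s + ℓ = 0) := by omega
            have hpop : (List.range ℓ).map (fun r => wk2 (s + r)) = enc (γ, ⟨i, by omega⟩) := by
              have := pop_push (enc (γ, ⟨i, by omega⟩)) s wk2 (fun r hr => by
                rw [a3 r hr, b2 _ (by rw [henc] at hr; omega)])
              rw [henc] at this
              exact this
            have hd : dOf prog (γ, (⟨i, by omega⟩ : Fin (N + 1))) = d := by
              simp only [dOf, h1]
            simp only [lprog, run_look, eobs, hne, decide_false, Bool.false_eq_true, if_false,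
              Prog.run_bind, run_pop w ℓ (j' * B) s wk2 [] (by omega), List.append_nil, hpop, hdec,
              hd, hback, Prog.run, hnx]
          have hstart : lstep (lprog B ℓ add bot rd prog out enc dec) lacc w
              (.loop γ ⟨i, by omega⟩ g, ⟨j * B, s, wk⟩) =
              ((mvI (dmv d) B).bind fun _ => look fun o1 =>
                if d = 0 ∧ decide (j * B = 0) = true then
                  (.go (.loop γ ⟨i + 1, by omega⟩ (add γ' bot g)) : Prog (Lab Γ G N))
                else if d = 2 ∧ o1.1.1.isNone = true then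
                  (mvI .L B).bind fun _ => .go (.loop γ ⟨i + 1, by omega⟩ (add γ' bot g))
                else (push (enc (γ, ⟨i, by omega⟩))).bind fun _ => .go (.call γ' g)).run w
                  ⟨j * B, s, wk⟩ := by
            rw [lstep_of _ _ _ _ _ _ _ _ _ _ _ _ rfl]
            simp only [lprog, h1, run_look, hnx]
            rfl
          simp only [Ins.exec]
          have hd3 : d = 0 ∨ d = 1 ∨ d = 2 := by fin_cases d <;> simp
          rcases hd3 with rfl | rfl | rfl
          · by_cases hj0 : j = 0
            · subst hj0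
              refine ⟨wk, Reach.head' ?_ (Reach.refl _ _), fun _ _ => rfl⟩
              rw [hstart]
              simp [dmv, Prog.run_bind, run_mvI_L, run_look, Prog.run, nb]
            · obtain ⟨j', rfl⟩ : ∃ j', j = j' + 1 := ⟨j - 1, by omega⟩
              have hb : ∀ wk', (mvI (bmv 0) B).run w ⟨j' * B, s, wk'⟩
                  = ((), ⟨(j' + 1) * B, s, wk'⟩) := by
                intro wk'
                have : j' * B + B ≤ w.length := by rw [Nat.succ_mul] at hjB; omega
                simp only [bmv, if_true]
                rw [run_mvI_R w B _ _ _ this, Nat.succ_mul]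
              obtain ⟨wk', r, p⟩ := recur j' (by omega) (hb wk) hb
              refine ⟨wk', Reach.head' hstart ?_, p⟩
              have h0 : ¬ ((j' + 1) * B = 0) := by
                rw [Nat.succ_mul]; omega
              have h3 : (j' + 1) * B - B = j' * B := by rw [Nat.succ_mul]; omega
              simpa [dmv, Prog.run_bind, run_mvI_L, run_look, h0, h3, nb] using r
          · have hb : ∀ wk', (mvI (bmv 1) B).run w ⟨j * B, s, wk'⟩ = ((), ⟨j * B, s, wk'⟩) := by
              intro wk'
              simp [bmv, run_mvI_S]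
            obtain ⟨wk', r, p⟩ := recur j hj (hb wk) hb
            refine ⟨wk', Reach.head' hstart ?_, p⟩
            simpa [dmv, Prog.run_bind, run_mvI_S, run_look, nb] using r
          · by_cases hjm : j + 1 = m
            · refine ⟨wk, Reach.head' ?_ (Reach.refl _ _), fun _ _ => rfl⟩
              rw [hstart]
              have h3 : w.length ≤ j * B + B := by rw [hn, ← hjm, Nat.succ_mul]
              simp [dmv, Prog.run_bind, run_mvI_R w B _ _ _ hjB, run_mvI_L, run_look, Prog.run, nb,
                hjm, eobs, h3]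
            · have hb : ∀ wk', (mvI (bmv 2) B).run w ⟨(j + 1) * B, s, wk'⟩
                  = ((), ⟨j * B, s, wk'⟩) := by
                intro wk'
                have h3 : (j + 1) * B - B = j * B := by rw [Nat.succ_mul]; omega
                simp [bmv, run_mvI_L, h3]
              obtain ⟨wk', r, p⟩ := recur (j + 1) (by omega) (hb wk) hb
              refine ⟨wk', Reach.head' hstart ?_, p⟩
              have h3 : j * B + B < w.length := by
                have : (j + 2) * B ≤ m * B := Nat.mul_le_mul_right _ (by omega)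
                rw [hn]
                nlinarith
              rw [Nat.succ_mul] at r
              simpa [dmv, Prog.run_bind, run_mvI_R w B _ _ _ hjB, run_look, nb, hjm, eobs, h3]
                using r
    obtain ⟨wk', r, p⟩ := inner (prog γ).length 0 (zero_add _) g wk
    refine ⟨wk', Reach.head' ?_ (by rw [hX τ j hj, ← hspec]; exact r), p⟩
    rw [lstep_of _ _ _ _ _ _ _ _ _ _ _ _ rfl]
    simp [lprog, run_look, eobs, hs', Prog.run]

/-- The stack machine accepts iff the output of the root block is `true`. -/
theorem rec_acc (w : List Sym) (m : ℕ) (hB : 0 < B) (hℓ : 0 < ℓ) (hm : 0 < m)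
    (hn : w.length = m * B)
    (Φ : (Fin 3 → A) → A) (X : ℕ → ℕ → A)
    (hlen : ∀ γ, (prog γ).length ≤ N)
    (hspec : ∀ γ x g, (prog γ).foldl (Ins.exec add x) g = add γ (Φ x) g)
    (henc : ∀ f, (enc f).length = ℓ) (hdec : ∀ f, dec (enc f) = f)
    (hX : ∀ τ j, j < m → X (τ + 1) j = Φ (nb bot m (X τ) j))
    (hrd : ∀ j, j < m → ∀ l : List (Option Sym),
      (∀ r, r < B → l[r]? = some (w[j * B + r]?)) → rd l = X 0 j) (h : ℕ)
    (hh : h * ℓ = w.length) (γ : Γ) (g : G) :
    (∃ t, lacc ((lstep (lprog B ℓ add bot rd prog out enc dec) lacc w)^[t]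
      (.call γ g, env0)).1 = true) ↔ out (add γ (X h 0) g) = true := by
  obtain ⟨wk', r, -⟩ := rec_run B ℓ add bot rd prog out enc dec w m hB hℓ hn Φ X hlen hspec henc
    hdec hX hrd h 0 hm 0 (by omega) γ g (fun _ => false)
  set f := lstep (lprog B ℓ add bot rd prog out enc dec) lacc w with hf
  have r2 : Reach f (.call γ g, env0) (.done (out (add γ (X h 0) g)), ⟨0, 0, wk'⟩) := by
    simp only [zero_mul] at r
    refine r.trans (Reach.head' ?_ (Reach.refl _ _))
    rw [hf, lstep_of _ _ _ _ _ _ _ _ _ _ _ _ rfl]
    simp [lprog, run_look, eobs, Prog.run]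
  obtain ⟨t0, ht0⟩ := r2
  have hfix : ∀ b e, f (.done b, e) = (.done b, e) := by
    intro b e
    cases b <;> simp [hf, lstep, lacc, lprog, Prog.run]
  constructor
  · rintro ⟨t, ht⟩
    have hst : ∀ u c, lacc c.1 = true → f^[u] c = c := by
      intro u c hc
      apply Function.iterate_fixed
      simp [hf, lstep, hc]
    have h1 := hst t0 _ ht
    rw [← Function.iterate_add_apply, add_comm, Function.iterate_add_apply, ht0,
      Function.iterate_fixed (hfix _ _)] at h1
    rw [← h1] at ht
    exact ht
  · intro ho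
    exact ⟨t0, by rw [ht0]; exact ho⟩

end

end Pool.Agent.Work.MP_76e736_lc
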