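import Pool.Agent.Work.MP_76e736_lc.Heads

/-! Table driven two-head machines and a universal cellular array for them. -/

namespace Pool.Agent.Work.MP_76e736_lc

/-- Actions: move of the input head, move of the work head, bit written (before moving). -/
abbrev Act := Mv × Mv × Option Bool
/-- The input alphabet. -/
abbrev Sym := Option (Act × Bool)
/-- Observations of a two-head machine. -/
abbrev Obs := (Option Sym × Bool) × (Option Bool × Bool)

@[ext] structure Env where
  ih : ℕ
  sh : ℕ
  work : ℕ → Bool

def eobs (w : List Sym) (e : Env) : Obs :=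
  ((w[e.ih]?, decide (e.ih = 0)),
    (if e.sh < w.length then some (e.work e.sh) else none, decide (e.sh = 0)))

def eapp (n : ℕ) (a : Act) (e : Env) : Env :=
  ⟨a.1.app n e.ih, a.2.1.app n e.sh, wupd e.work e.sh a.2.2⟩

def env0 : Env := ⟨0, 0, fun _ => false⟩

def noop : Act := (.S, .S, none)

@[simp] theorem eapp_noop (n : ℕ) (e : Env) : eapp n noop e = e := rfl

def pstep {St : Type} (δ : St → Obs → St × Act) (acc : St → Bool) (w : List Sym)
    (c : St × Env) : St × Env :=
  if acc c.1 then c else ((δ c.1 (eobs w c.2)).1, eapp w.length (δ c.1 (eobs w c.2)).2 c.2)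

inductive UH : Type
  | pc | st | ih | sh
  deriving DecidableEq, Fintype

@[irreducible] def NO : ℕ := Fintype.card Obs

theorem NO_eq : Fintype.card Obs = NO := by unfold NO; exact Eq.refl _

noncomputable def oi : Obs ≃ Fin NO := Fintype.equivFinOfCardEq NO_eq

inductive UQ : Type
  | boot | fetch | add (j : Fin NO) | seek | copy | acc
  deriving DecidableEq, Fintype

def mv4 (a b c d : Mv) : UH → Mv
  | .pc => a
  | .st => b
  | .ih => c
  | .sh => d

def obsOf (o : UH → HObs Sym Bool) : Obs :=
  (((o .ih).1.map Prod.fst, (o .ih).2), ((o .sh).1.map Prod.snd, (o .sh).2))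

noncomputable def udel : UQ → (UH → HObs Sym Bool) → UQ × (UH → Mv) × Option Bool
  | .boot, _ => (.copy, mv4 .Z .Z .Z .Z, none)
  | .fetch, o => (.add (oi (obsOf o)), mv4 .S .S .S .S, none)
  | .add j, _ =>
    if j.val = 0 then (.seek, mv4 .S .S .S .S, none)
    else (.add ⟨j.val - 1, by omega⟩, mv4 .S .R .S .S, none)
  | .seek, o =>
    if (o .st).2 then (.copy, mv4 .S .S .S .S, none)
    else match (o .pc).1.map Prod.fst with
      | some (some _) => (.seek, mv4 .R .L .S .S, none)
      | _ => (.seek, mv4 .R .S .S .S, none)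
  | .copy, o =>
    match (o .pc).1.map Prod.fst with
      | some (some (a, b)) => (if b then .acc else .fetch, mv4 .Z .S a.1 a.2.1, a.2.2)
      | _ => (.copy, mv4 .R .R .S .S, none)
  | .acc, _ => (.acc, mv4 .S .S .S .S, none)

def uacc : UQ → Bool
  | .acc => true
  | _ => false

def upos (pc st : ℕ) (e : Env) : UH → ℕ
  | .pc => pc
  | .st => st
  | .ih => e.ih
  | .sh => e.sh

def ucfg (q : UQ) (pc st : ℕ) (e : Env) : HCfg UQ UH Bool := ⟨q, upos pc st e, e.work⟩

noncomputable def ustep (w : List Sym) : HCfg UQ UH Bool → HCfg UQ UH Bool :=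
  hstep udel .sh uacc w

theorem ustep_eq (w : List Sym) (q q' : UQ) (pc st : ℕ) (e : Env) (a b c d : Mv)
    (wr : Option Bool) (hq : uacc q = false)
    (h : udel q (hobs w (ucfg q pc st e)) = (q', mv4 a b c d, wr)) :
    ustep w (ucfg q pc st e)
      = ucfg q' (a.app w.length pc) (b.app w.length st) (eapp w.length (c, d, wr) e) := by
  have hq' : uacc (ucfg q pc st e).q = false := hq
  have h' : udel (ucfg q pc st e).q (hobs w (ucfg q pc st e)) = (q', mv4 a b c d, wr) := h
  simp only [ustep, hstep, hq', Bool.false_eq_true, if_false, hnext, h']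
  simp only [ucfg, eapp, HCfg.mk.injEq, true_and]
  refine ⟨?_, rfl⟩
  funext k
  cases k <;> rfl

theorem obsOf_ucfg (w : List Sym) (q : UQ) (pc st : ℕ) (e : Env) :
    obsOf (hobs w (ucfg q pc st e)) = eobs w e := by
  simp only [obsOf, hobs, ucfg, upos, eobs, Option.map_map]
  congr 2
  · cases w[e.ih]? <;> rfl
  · by_cases h : e.sh < w.length
    · simp [h]
    · simp [h]

theorem obs_pc (w : List Sym) (q : UQ) (pc st : ℕ) (e : Env) :
    (hobs w (ucfg q pc st e) .pc).1.map Prod.fst = w[pc]? := by
  simp only [hobs, ucfg, upos, Option.map_map]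
  cases w[pc]? <;> rfl

theorem obs_st (w : List Sym) (q : UQ) (pc st : ℕ) (e : Env) :
    (hobs w (ucfg q pc st e) .st).2 = decide (st = 0) := rfl

theorem add_run (w : List Sym) (pc : ℕ) (e : Env) (j : ℕ) :
    ∀ (hj : j < NO) (st : ℕ), st + j ≤ w.length →
      Reach (ustep w) (ucfg (.add ⟨j, hj⟩) pc st e) (ucfg .seek pc (st + j) e) := by
  induction j with
  | zero =>
    intro hj st _
    refine Reach.head' (ustep_eq w _ .seek pc st e .S .S .S .S none rfl ?_) (Reach.refl _ _)
    simp [udel]
  | succ j ih =>
    intro hj st hst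
    refine Reach.head' (ustep_eq w _ (.add ⟨j, by omega⟩) pc st e .S .R .S .S none rfl ?_) ?_
    · simp [udel]
    · have : Mv.app w.length .R st = st + 1 := by simp [Mv.app]; omega
      rw [this, show st + (j + 1) = st + 1 + j by omega]
      exact ih (by omega) (st + 1) (by omega)

/-- The word `w` begins with `R` records `1^(len k) (act k)`, the `k`-th starting at `off k`. -/
def Tab (w : List Sym) (R : ℕ) (len : ℕ → ℕ) (act : ℕ → Act × Bool) (off : ℕ → ℕ) : Prop :=
  off 0 = 0 ∧ ∀ k, k < R → (∀ i, i < len k → w[off k + i]? = some none) ∧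
    w[off k + len k]? = some (some (act k)) ∧ off (k + 1) = off k + len k + 1

section
variable {w : List Sym} {R : ℕ} {len : ℕ → ℕ} {act : ℕ → Act × Bool} {off : ℕ → ℕ}

theorem Tab.lt (T : Tab w R len act off) {k : ℕ} (hk : k < R) : off k + len k < w.length := by
  have := (T.2 k hk).2.1
  by_contra h
  rw [List.getElem?_eq_none (by omega)] at this
  cases this

theorem Tab.le_off (T : Tab w R len act off) : ∀ k, k ≤ R → k ≤ off k := by
  intro k
  induction k with
  | zero => intro _; omega
  | succ k ih =>
    intro hk
    have := (T.2 k hk).2.2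
    have := ih (by omega)
    omega

theorem skip_run (T : Tab w R len act off) {k : ℕ} (hk : k < R) (s : ℕ) (e : Env) (u : ℕ) :
    ∀ i, i + u = len k →
      Reach (ustep w) (ucfg .seek (off k + i) (s + 1) e) (ucfg .seek (off (k + 1)) s e) := by
  have hlt := T.lt hk
  obtain ⟨h1, h2, h3⟩ := T.2 k hk
  induction u with
  | zero =>
    intro i hi
    have : i = len k := by omega
    subst this
    refine Reach.head' (ustep_eq w _ .seek _ _ e .R .L .S .S none rfl ?_) ?_
    · simp [udel, obs_st, obs_pc, h2]
    · have : Mv.app w.length .R (off k + len k) = off (k + 1) := by simp [Mv.app]; omega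
      rw [this]
      exact Reach.refl _ _
  | succ u ih =>
    intro i hi
    refine Reach.head' (ustep_eq w _ .seek _ _ e .R .S .S .S none rfl ?_) ?_
    · simp [udel, obs_st, obs_pc, h1 i (by omega)]
    · have : Mv.app w.length .R (off k + i) = off k + (i + 1) := by simp [Mv.app]; omega
      rw [this]
      exact ih (i + 1) (by omega)

theorem seek_run (T : Tab w R len act off) (e : Env) (s : ℕ) :
    ∀ k, k + s ≤ R → Reach (ustep w) (ucfg .seek (off k) s e) (ucfg .copy (off (k + s)) 0 e) := by
  induction s with
  | zero =>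
    intro k _
    refine Reach.head' (ustep_eq w _ .copy _ _ e .S .S .S .S none rfl ?_) (Reach.refl _ _)
    simp [udel, obs_st]
  | succ s ih =>
    intro k hk
    refine (skip_run T (k := k) (by omega) s e (len k) 0 (by omega)).trans ?_
    rw [show k + (s + 1) = k + 1 + s by omega]
    exact ih (k + 1) (by omega)

theorem copy_run (T : Tab w R len act off) {k : ℕ} (hk : k < R) (e : Env) (u : ℕ) :
    ∀ i, i + u = len k →
      Reach (ustep w) (ucfg .copy (off k + i) i e)
        (ucfg (if (act k).2 then .acc else .fetch) 0 (len k) (eapp w.length (act k).1 e)) := by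
  have hlt := T.lt hk
  obtain ⟨h1, h2, h3⟩ := T.2 k hk
  induction u with
  | zero =>
    intro i hi
    have : i = len k := by omega
    subst this
    refine Reach.head' (ustep_eq w _ (if (act k).2 then .acc else .fetch) _ _ e .Z .S
      (act k).1.1 (act k).1.2.1 (act k).1.2.2 rfl ?_) (Reach.refl _ _)
    simp [udel, obs_pc, h2]
  | succ u ih =>
    intro i hi
    refine Reach.head' (ustep_eq w _ .copy _ _ e .R .R .S .S none rfl ?_) ?_
    · simp [udel, obs_pc, h1 i (by omega)]
    · have a : Mv.app w.length .R (off k + i) = off k + (i + 1) := by simp [Mv.app]; omega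
      have b : Mv.app w.length .R i = i + 1 := by simp [Mv.app]; omega
      rw [a, b]
      exact ih (i + 1) (by omega)

end

def tabOff (len : ℕ → ℕ) : ℕ → ℕ
  | 0 => 0
  | k + 1 => tabOff len k + len k + 1

def tabW (len : ℕ → ℕ) (act : ℕ → Act × Bool) : ℕ → List Sym
  | 0 => []
  | k + 1 => tabW len act k ++ (List.replicate (len k) none ++ [some (act k)])

theorem tabW_length (len : ℕ → ℕ) (act : ℕ → Act × Bool) (k : ℕ) :
    (tabW len act k).length = tabOff len k := by
  induction k with
  | zero => rfl
  | succ k ih => simp [tabW, tabOff, ih]; omega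

theorem tabW_split (len : ℕ → ℕ) (act : ℕ → Act × Bool) (k u : ℕ) :
    ∃ r, tabW len act (k + u) = tabW len act k ++ r := by
  induction u with
  | zero => exact ⟨[], by simp⟩
  | succ u ih =>
    obtain ⟨r, hr⟩ := ih
    exact ⟨r ++ (List.replicate (len (k + u)) none ++ [some (act (k + u))]), by
      rw [← Nat.add_assoc, tabW, hr, List.append_assoc]⟩

theorem tab_tabW (len : ℕ → ℕ) (act : ℕ → Act × Bool) (R : ℕ) (pad : List Sym) :
    Tab (tabW len act R ++ pad) R len act (tabOff len) := by
  refine ⟨rfl, fun k hk => ?_⟩
  obtain ⟨r, hr⟩ := tabW_split len act (k + 1) (R - (k + 1))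
  rw [show k + 1 + (R - (k + 1)) = R by omega] at hr
  rw [hr, tabW]
  simp only [List.append_assoc]
  refine ⟨fun i hi => ?_, ?_, rfl⟩
  · rw [List.getElem?_append_right (by rw [tabW_length]; omega), tabW_length,
      List.getElem?_append_left (by simp; omega)]
    simp [hi]
  · rw [List.getElem?_append_right (by rw [tabW_length]; omega), tabW_length,
      List.getElem?_append_right (by simp)]
    simp

/-- The universal four-head machine runs any two-head machine from its table. -/
theorem univ_heads {St : Type} [Fintype St] (δ : St → Obs → St × Act) (acc : St → Bool)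
    (s0 : St) :
    ∃ tbl : List Sym, ∀ pad : List Sym,
      ((∃ t, uacc ((ustep (tbl ++ pad))^[t] (hinit .boot false (tbl ++ pad))).q = true) ↔
        ∃ t, acc ((pstep δ acc (tbl ++ pad))^[t] (s0, env0)).1 = true) := by
  classical
  let M := Fintype.card St
  let idx : St ≃ Fin M := Fintype.equivFin St
  have hNO : 0 < NO := NO_eq ▸ Fintype.card_pos
  let code : St → ℕ := fun s => 1 + NO * (idx s).val
  let dec : ℕ → St × Act := fun k =>
    if h : 1 ≤ k ∧ (k - 1) / NO < M then
      δ (idx.symm ⟨(k - 1) / NO, h.2⟩) (oi.symm ⟨(k - 1) % NO, Nat.mod_lt _ hNO⟩)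
    else (s0, noop)
  let len : ℕ → ℕ := fun k => code (dec k).1
  let act : ℕ → Act × Bool := fun k => ((dec k).2, acc (dec k).1)
  let R := 1 + NO * M
  have hdec : ∀ s o, dec (code s + (oi o).val) = δ s o := by
    intro s o
    have h1 : (code s + (oi o).val - 1) / NO = (idx s).val := by
      have : code s + (oi o).val - 1 = (oi o).val + NO * (idx s).val := by simp only [code]; omega
      rw [this, Nat.add_mul_div_left _ _ hNO, Nat.div_eq_of_lt (oi o).2, zero_add]
    have h2 : (code s + (oi o).val - 1) % NO = (oi o).val := by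
      have : code s + (oi o).val - 1 = (oi o).val + NO * (idx s).val := by simp only [code]; omega
      rw [this, Nat.add_mul_mod_self_left, Nat.mod_eq_of_lt (oi o).2]
    have h3 : 1 ≤ code s + (oi o).val ∧ (code s + (oi o).val - 1) / NO < M :=
      ⟨by simp only [code]; omega, by rw [h1]; exact (idx s).2⟩
    simp only [dec]
    rw [dif_pos h3]
    simp only [h1, h2, Fin.eta, Equiv.symm_apply_apply]
  have hlt : ∀ s o, code s + (oi o).val < R := by
    intro s o
    have a := (idx s).2
    have b := (oi o).2
    have : NO * ((idx s).val + 1) ≤ NO * M := Nat.mul_le_mul_left _ a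
    simp only [code, R]
    nlinarith
  refine ⟨tabW len act R, fun pad => ?_⟩
  have T := tab_tabW len act R pad
  set w := tabW len act R ++ pad with hw
  let Rel : St × Env → HCfg UQ UH Bool → Prop := fun c u =>
    u = ucfg (if acc c.1 then .acc else .fetch) 0 (code c.1) c.2
  have hstk : ∀ b : HCfg UQ UH Bool, uacc b.q = true → uacc (ustep w b).q = true := by
    intro b hb
    simp [ustep, hstep, hb]
  have hsim := sim (pstep δ acc w) (ustep w) Rel (fun c => acc c.1 = true)
    (fun u => uacc u.q = true) ?_ ?_ hstk (s0, env0) _ rfl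
  · rw [hsim]
    have hboot : Reach (ustep w) (hinit .boot false w)
        (ucfg (if acc s0 then .acc else .fetch) 0 (code s0) env0) := by
      have e0 : (hinit .boot false w : HCfg UQ UH Bool)
          = ucfg .boot w.length w.length ⟨w.length, w.length, fun _ => false⟩ := by
        simp only [hinit, ucfg, HCfg.mk.injEq, true_and, and_true]
        funext k
        cases k <;> rfl
      rw [e0]
      refine Reach.head' (ustep_eq w _ .copy _ _ _ .Z .Z .Z .Z none rfl rfl) ?_
      have := copy_run T (k := 0) (by simp only [R]; omega) env0 (len 0) 0 (by omega)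
      have hd : dec 0 = (s0, noop) := by simp [dec]
      simp only [len, act, hd, eapp_noop] at this
      exact this
    obtain ⟨t0, ht0⟩ := hboot
    constructor
    · rintro ⟨t, ht⟩
      refine ⟨t, ?_⟩
      have : ∀ u b, uacc b.q = true → uacc ((ustep w)^[u] b).q = true := by
        intro u
        induction u with
        | zero => intro b hb; exact hb
        | succ u ih => intro b hb; rw [Function.iterate_succ_apply']; exact hstk _ (ih b hb)
      have h2 := this t0 _ ht
      rw [← Function.iterate_add_apply, add_comm, Function.iterate_add_apply, ht0] at h2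
      exact h2
    · rintro ⟨t, ht⟩
      refine ⟨t + t0, ?_⟩
      rw [Function.iterate_add_apply, ht0]
      exact ht
  · rintro ⟨s, e⟩ u hu
    simp only [Rel] at hu ⊢
    cases hacc : acc s with
    | true =>
      refine ⟨1, le_rfl, ?_⟩
      simp only [hacc, if_true] at hu
      subst hu
      simp [pstep, hacc, ustep, hstep, ucfg, uacc]
    | false =>
      simp only [hacc, Bool.false_eq_true, if_false] at hu
      subst hu
      have hk := hlt s (eobs w e)
      have hoff := T.le_off _ hk.le
      have hoff2 := T.lt hk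
      have : Reach (ustep w) (ustep w (ucfg .fetch 0 (code s) e))
          (ucfg (if acc (δ s (eobs w e)).1 then .acc else .fetch) 0 (code (δ s (eobs w e)).1)
            (eapp w.length (δ s (eobs w e)).2 e)) := by
        rw [ustep_eq w _ (.add (oi (eobs w e))) 0 (code s) e .S .S .S .S none rfl
          (by simp [udel, obsOf_ucfg])]
        refine (add_run w 0 e (oi (eobs w e)).val (oi (eobs w e)).2 (code s) (by omega)).trans ?_
        have h1 := seek_run T e (code s + (oi (eobs w e)).val) 0 (by omega)
        rw [zero_add] at h1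
        refine h1.trans ?_
        have h2 := copy_run T hk e _ 0 (zero_add _)
        simp only [len, act, hdec] at h2
        exact h2
      obtain ⟨t, ht, h⟩ := this.pos
      refine ⟨t, ht, ?_⟩
      rw [h]
      simp [pstep, hacc]
  · rintro ⟨s, e⟩ u hu
    simp only [Rel] at hu
    subst hu
    cases hacc : acc s <;> simp [ucfg, uacc]

/-- A universal cellular array for two-head machines given by a table at the start of the input. -/
theorem univ_ca :
    ∃ (D : Type) (_ : Fintype D) (δ' : Option D → Option D → Option D → D) (ini : Sym → D)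
      (F : D → Prop), ∀ (St : Type) [Fintype St] (δ : St → Obs → St × Act) (acc : St → Bool)
        (s0 : St), ∃ tbl : List Sym, ∀ pad : List Sym, 1 ≤ (tbl ++ pad).length →
          ((∃ t, caAccAt δ' ini F (tbl ++ pad) t) ↔
            ∃ t, acc ((pstep δ acc (tbl ++ pad))^[t] (s0, env0)).1 = true) := by
  obtain ⟨D, hD, δ', ini, F, h⟩ := heads_ca udel UH.sh uacc (none : Sym) UQ.boot false
  refine ⟨D, hD, δ', ini, F, fun St _ δ acc s0 => ?_⟩
  obtain ⟨tbl, ht⟩ := univ_heads δ acc s0
  refine ⟨tbl, fun pad hl => ?_⟩
  rw [h _ hl]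
  exact ht pad

end Pool.Agent.Work.MP_76e736_lc
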