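import Pool.Agent.Work.MP_76e736_lc.Basic

/-! A single head sweeping back and forth over the tape, simulated by a cellular array. -/

namespace Pool.Agent.Work.MP_76e736_lc

/-- Configuration of the sweeping head: position, control state, direction, tape. -/
structure WCfg (G C : Type) where
  p : ℕ
  g : G
  d : Bool
  τ : ℕ → C

section
variable {G C : Type} (fR fL : G → C → G × C) (acc : G → Bool)

/-- One step of the sweeping head on a tape with cells `1..n`. -/
def wstep (n : ℕ) (c : WCfg G C) : WCfg G C :=
  if c.d then
    if c.p < n then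
      ⟨c.p + 1, (fR c.g (c.τ (c.p + 1))).1, true,
        Function.update c.τ (c.p + 1) (fR c.g (c.τ (c.p + 1))).2⟩
    else ⟨c.p, (fL c.g (c.τ c.p)).1, false, Function.update c.τ c.p (fL c.g (c.τ c.p)).2⟩
  else
    if 1 < c.p then
      ⟨c.p - 1, (fL c.g (c.τ (c.p - 1))).1, false,
        Function.update c.τ (c.p - 1) (fL c.g (c.τ (c.p - 1))).2⟩
    else if acc c.g then c
    else ⟨c.p, (fR c.g (c.τ c.p)).1, true, Function.update c.τ c.p (fR c.g (c.τ c.p)).2⟩

/-- Acceptance of the sweeping head. -/
def wacc (c : WCfg G C) : Prop := c.p = 1 ∧ c.d = false ∧ acc c.g = true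

/-- Cell states of the simulating array. -/
abbrev WSt (G C : Type) := C × Option (G × Bool) × Bool

def whd (x : Option (WSt G C)) : Option (G × Bool) := x.bind (fun s => s.2.1)

def wdel (c0 : C) (g0 : G) (l s r : Option (WSt G C)) : WSt G C :=
  match s with
  | none => (c0, none, false)
  | some (c, h, f) =>
    if f then (c, if l.isNone then some (g0, false) else none, false)
    else match whd l with
      | some (g, true) => ((fR g c).2, some ((fR g c).1, true), false)
      | _ => match whd r with
        | some (g, false) => ((fL g c).2, some ((fL g c).1, false), false)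
        | _ => match h with
          | some (g, true) =>
            if r.isNone then ((fL g c).2, some ((fL g c).1, false), false) else (c, none, false)
          | some (g, false) =>
            if l.isNone then
              (if acc g then (c, h, false) else ((fR g c).2, some ((fR g c).1, true), false))
            else (c, none, false)
          | none => (c, none, false)

def wemb (n : ℕ) (c : WCfg G C) (i : ℕ) : Option (WSt G C) :=
  if 1 ≤ i ∧ i ≤ n then some (c.τ i, if i = c.p then some (c.g, c.d) else none, false) else none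

theorem wstep_range (n : ℕ) (c : WCfg G C) (h1 : 1 ≤ c.p) (h2 : c.p ≤ n) :
    1 ≤ (wstep fR fL acc n c).p ∧ (wstep fR fL acc n c).p ≤ n := by
  unfold wstep
  split_ifs <;> (try dsimp only) <;> omega

theorem whd_wemb (n : ℕ) (c : WCfg G C) (h1 : 1 ≤ c.p) (h2 : c.p ≤ n) (i : ℕ) :
    whd (wemb n c i) = if i = c.p then some (c.g, c.d) else none := by
  unfold whd wemb
  split_ifs with h h' h'
  · simp
  · simp
  · omega
  · simp

theorem wemb_isNone (n : ℕ) (c : WCfg G C) (i : ℕ) :
    (wemb n c i).isNone = decide (¬ (1 ≤ i ∧ i ≤ n)) := by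
  unfold wemb
  split_ifs with h <;> simp [h]

theorem wemb_step (c0 : C) (g0 : G) (n : ℕ) (c : WCfg G C) (h1 : 1 ≤ c.p) (h2 : c.p ≤ n) :
    caStep (wdel fR fL acc c0 g0) n (wemb n c) = wemb n (wstep fR fL acc n c) := by
  funext i
  obtain ⟨p, g, d, τ⟩ := c
  simp only at h1 h2
  by_cases hi : 1 ≤ i ∧ i ≤ n
  · have hs : wemb n (⟨p, g, d, τ⟩ : WCfg G C) i
        = some (τ i, if i = p then some (g, d) else none, false) := by
      simp [wemb, hi]
    have hl := whd_wemb n (⟨p, g, d, τ⟩ : WCfg G C) h1 h2 (i - 1)
    have hr := whd_wemb n (⟨p, g, d, τ⟩ : WCfg G C) h1 h2 (i + 1)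
    have hl' := wemb_isNone n (⟨p, g, d, τ⟩ : WCfg G C) (i - 1)
    have hr' := wemb_isNone n (⟨p, g, d, τ⟩ : WCfg G C) (i + 1)
    simp only [caStep, hi, and_self, if_true, hs, wdel, hl, hr, hl', hr']
    simp only [wemb, hi, and_self, if_true, wstep]
    obtain ⟨hi1, hi2⟩ := hi
    cases d
    · by_cases e1 : i = p
      · subst e1
        have : ¬ (i - 1 = i) := by omega
        by_cases e2 : 1 < i
        · have h3 : 1 ≤ i - 1 := by omega
          have h4 : i - 1 ≤ n := by omega
          have h5 : ¬ (i = i - 1) := by omega
          simp [this, e2, h3, h4, h5]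
        · have h3 : i = 1 := by omega
          subst h3
          cases hacc : acc g <;> simp [hacc]
      · by_cases e2 : i + 1 = p
        · subst e2
          have h3 : ¬ (i - 1 = i + 1) := by omega
          have h4 : 1 < i + 1 := by omega
          simp [h3, h4]
        · by_cases e3 : 1 < p
          · have h5 : ¬ (i = p - 1) := by omega
            by_cases e4 : i - 1 = p <;> simp [e1, e2, e3, e4, h5]
          · by_cases e4 : i - 1 = p <;> cases hacc : acc g <;> simp [e1, e2, e3, e4]
    · by_cases e1 : i = p
      · subst e1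
        have : ¬ (i - 1 = i) := by omega
        by_cases e2 : i < n
        · have h4 : i + 1 ≤ n := by omega
          simp [this, e2, h4]
        · have h4 : ¬ (i + 1 ≤ n) := by omega
          simp [this, e2, h4]
      · by_cases e2 : i - 1 = p
        · have h3 : i = p + 1 := by omega
          subst h3
          have h4 : p < n := by omega
          simp [h4]
        · by_cases e3 : p < n
          · have h5 : ¬ (i = p + 1) := by omega
            by_cases e4 : i + 1 = p <;> simp [e1, e2, e3, e4, h5]
          · by_cases e4 : i + 1 = p <;> simp [e1, e2, e3, e4]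
  · simp [caStep, wemb, hi]

theorem wemb_iter (c0 : C) (g0 : G) (n : ℕ) (c : WCfg G C) (h1 : 1 ≤ c.p) (h2 : c.p ≤ n)
    (t : ℕ) :
    (caStep (wdel fR fL acc c0 g0) n)^[t] (wemb n c) = wemb n ((wstep fR fL acc n)^[t] c) ∧
      1 ≤ ((wstep fR fL acc n)^[t] c).p ∧ ((wstep fR fL acc n)^[t] c).p ≤ n := by
  induction t with
  | zero => exact ⟨rfl, h1, h2⟩
  | succ t ih =>
    obtain ⟨e, a, b⟩ := ih
    rw [Function.iterate_succ_apply', Function.iterate_succ_apply', e]
    exact ⟨wemb_step fR fL acc c0 g0 n _ a b, wstep_range fR fL acc n _ a b⟩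

/-- Accepting cell states. -/
def wF (s : WSt G C) : Prop := ∃ g, s.2.1 = some (g, false) ∧ acc g = true

/-- Initial configuration of the sweeping head. -/
def winit {S : Type} (c0 : C) (g0 : G) (ini : S → C) (w : List S) : WCfg G C :=
  ⟨1, g0, false, fun i => ((w[i - 1]?).map ini).getD c0⟩

theorem walker_ca {S : Type} (c0 : C) (g0 : G) (ini : S → C) (w : List S) (hw : 1 ≤ w.length) :
    (∃ t, caAccAt (wdel fR fL acc c0 g0) (fun a => ((ini a, none, true) : WSt G C)) (wF acc) w t)
      ↔ ∃ t, wacc acc ((wstep fR fL acc w.length)^[t] (winit c0 g0 ini w)) := by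
  have h0 : caStep (wdel fR fL acc c0 g0) w.length
      (caInit (fun a => ((ini a, none, true) : WSt G C)) w) = wemb w.length (winit c0 g0 ini w) := by
    funext i
    by_cases hi : 1 ≤ i ∧ i ≤ w.length
    · have hlt : i - 1 < w.length := by omega
      have hs : caInit (fun a => ((ini a, none, true) : WSt G C)) w i
          = some (ini w[i - 1], none, true) := by
        simp [caInit, hi.1, hlt]
      have hl : (caInit (fun a => ((ini a, none, true) : WSt G C)) w (i - 1)).isNone
          = decide (i = 1) := by
        by_cases e : i = 1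
        · subst e; simp [caInit]
        · have h3 : 1 ≤ i - 1 := by omega
          have h4 : i - 1 - 1 < w.length := by omega
          simp [caInit, h3, h4, e]
      simp only [caStep, hi, and_self, if_true, hs, wdel, hl]
      simp only [wemb, hi, winit, and_self, if_true, List.getElem?_eq_getElem hlt, Option.map_some,
        Option.getD_some, decide_eq_true_eq]
    · simp [caStep, wemb, hi]
  have h1 : ∀ t, caCfg (wdel fR fL acc c0 g0) (fun a => ((ini a, none, true) : WSt G C)) w (t + 1)
      = wemb w.length ((wstep fR fL acc w.length)^[t] (winit c0 g0 ini w)) := by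
    intro t
    unfold caCfg
    rw [Function.iterate_succ_apply, h0]
    exact (wemb_iter fR fL acc c0 g0 _ (winit c0 g0 ini w) le_rfl hw t).1
  constructor
  · rintro ⟨t, q, ⟨g, hg, hacc⟩, hq⟩
    cases t with
    | zero =>
      exfalso
      have hlt : 0 < w.length := hw
      simp only [caCfg, Function.iterate_zero, id, caInit, le_refl, if_true, Nat.sub_self,
        List.getElem?_eq_getElem hlt, Option.map_some, Option.some.injEq] at hq
      subst hq
      simp at hg
    | succ t =>
      refine ⟨t, ?_⟩
      rw [h1] at hq
      simp only [wemb, le_refl, hw, and_self, if_true, Option.some.injEq] at hq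
      subst hq
      simp only at hg
      split_ifs at hg with e
      simp only [Option.some.injEq, Prod.mk.injEq] at hg
      exact ⟨e.symm, hg.2, hg.1 ▸ hacc⟩
  · rintro ⟨t, hp, hd, hacc⟩
    refine ⟨t + 1, _, ?_, by rw [h1]; simp only [wemb, le_refl, hw, and_self, if_true]; rfl⟩
    exact ⟨_, by simp [hp, hd], hacc⟩

theorem wacc_sticky (n : ℕ) (c : WCfg G C) (h : wacc acc c) : wacc acc (wstep fR fL acc n c) := by
  obtain ⟨hp, hd, hacc⟩ := h
  have : wstep fR fL acc n c = c := by
    simp [wstep, hp, hd, hacc]
  rw [this]
  exact ⟨hp, hd, hacc⟩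

end

end Pool.Agent.Work.MP_76e736_lc
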